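import Pool.Agent.Helper34.LT.Df

/-!
# LT, block G, piece G1: algebra of `zt`, `pt`, `lam`

Direct computations. `zt q = exp (2 π i / q)` is a primitive root (`Complex.isPrimitiveRoot_exp`),
its conjugate is its inverse (`Complex.exp_conj`).
-/

set_option autoImplicit false

namespace LTG

open Finset Pool.Agent.Helper34.LT

theorem zt_prim (q : ℕ) (hq : q ≠ 0) : IsPrimitiveRoot (zt q) q := by
  unfold zt
  exact Complex.isPrimitiveRoot_exp q hq

theorem zt_pow_q (q : ℕ) (hq : q ≠ 0) : zt q ^ q = 1 := by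
  exact (zt_prim q hq).pow_eq_one

theorem zt_ne (q : ℕ) : zt q ≠ 0 := by
  exact Complex.exp_ne_zero _

theorem conj_zt (q : ℕ) : (starRingEnd ℂ) (zt q) = (zt q)⁻¹ := by
  unfold zt
  rw [← Complex.exp_conj, ← Complex.exp_neg]
  congr 1
  simp only [map_div₀, map_mul, Complex.conj_ofReal, Complex.conj_I, map_natCast, map_ofNat]
  ring

/-- `conj (zeta^u) = zeta^(q-u)` -/
theorem conj_zt_pow (q u : ℕ) (hq : q ≠ 0) (h : u ≤ q) :
    (starRingEnd ℂ) (zt q ^ u) = zt q ^ (q - u) := by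
  rw [map_pow, conj_zt, inv_pow, eq_comm]
  refine eq_inv_of_mul_eq_one_left ?_
  rw [← pow_add, Nat.sub_add_cancel h, zt_pow_q q hq]

theorem pt_add (q : ℕ) (s : Finset ℕ) (P Q : Polynomial ℤ) : pt q s (P + Q) = pt q s P + pt q s Q := by
  funext u
  simp only [pt, Pi.add_apply, map_add]

theorem pt_mul (q : ℕ) (s : Finset ℕ) (P Q : Polynomial ℤ) : pt q s (P * Q) = pt q s P * pt q s Q := by
  funext u
  simp only [pt, Pi.mul_apply, map_mul]

theorem pt_X_pow (q : ℕ) (s : Finset ℕ) (n : ℕ) (u : s) :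
    pt q s (Polynomial.X ^ n) u = zt q ^ ((u : ℕ) * n) := by
  simp only [pt, map_pow, Polynomial.aeval_X, ← pow_mul]

theorem pt_C (q : ℕ) (s : Finset ℕ) (n : ℤ) (u : s) : pt q s (Polynomial.C n) u = n := by
  simp [pt]

/-- `P` is a sum of monomials -/
theorem pt_eq_sum (q : ℕ) (s : Finset ℕ) (P : Polynomial ℤ) (u : s) :
    pt q s P u = ∑ n ∈ range (P.natDegree + 1), (P.coeff n : ℂ) * zt q ^ ((u : ℕ) * n) := by
  simp only [pt]
  rw [Polynomial.aeval_eq_sum_range]
  refine sum_congr rfl fun n _ => ?_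
  rw [zsmul_eq_mul, ← pow_mul]

theorem lam_add (q a b : ℕ) (P Q : Polynomial ℤ) :
    lam q a b (P + Q) = lam q a b P + lam q a b Q := by
  funext u
  simp only [lam, pt_add, Pi.add_apply, mul_add]

theorem lam_zero (q a b : ℕ) : lam q a b 0 = 0 := by
  funext u
  simp [lam, pt]

theorem lam_neg (q a b : ℕ) (P : Polynomial ℤ) : lam q a b (-P) = -lam q a b P := by
  funext u
  simp [lam, pt]

theorem lam_zsmul (q a b : ℕ) (n : ℤ) (P : Polynomial ℤ) :
    lam q a b (n • P) = (n : ℂ) • lam q a b P := by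
  funext u
  change rho q a b u * Polynomial.aeval (zt q ^ (u : ℕ)) (n • P) =
    (n : ℂ) * (rho q a b u * Polynomial.aeval (zt q ^ (u : ℕ)) P)
  rw [map_zsmul, zsmul_eq_mul]
  ring

theorem lam_sum (q a b : ℕ) {J : Type} (s : Finset J) (P : J → Polynomial ℤ) :
    lam q a b (∑ j ∈ s, P j) = ∑ j ∈ s, lam q a b (P j) := by
  classical
  induction s using Finset.induction_on with
  | empty => rw [sum_empty, sum_empty, lam_zero]
  | insert j s hj ih => rw [sum_insert hj, sum_insert hj, lam_add, ih]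

/-- exponents modulo `q` do not matter -/
theorem lam_X_mod (q a b n m : ℕ) (hq : q ≠ 0) (h : n ≡ m [MOD q]) (P : Polynomial ℤ) :
    lam q a b (Polynomial.X ^ n * P) = lam q a b (Polynomial.X ^ m * P) := by
  funext u
  have h1 : (zt q ^ (u : ℕ)) ^ n = (zt q ^ (u : ℕ)) ^ m := by
    rw [← pow_mul, ← pow_mul]
    exact pow_eq_pow_of_modEq (h.mul_left _) (zt_pow_q q hq)
  simp only [lam, pt, map_mul, map_pow, Polynomial.aeval_X, h1]

end LTG
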