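import Pool.Agent.Helper4.LT.Gd

/-!
# LT, block G, piece G0: the half system `Phi` and the scales `rho`

`mem_Phi_sub`: for `1 ≤ u < q` put `x = (u a) mod q`, `y = (u b) mod q`; both lie in `[1, q-1]`
because `q` is prime and does not divide `u`, `a`, `b`. Modulo `q` we have `(q-u) a = - u a`, so
`((q-u) a) mod q = q - x`, similarly `q - y`. And `x + y ≠ q` because `q ∤ u (a+b)`. So exactly one
of `x + y > q`, `(q-x) + (q-y) > q` holds.

`card_HS`: `u ↦ q - u` is an involution of the `q.totient` units of `[1, q-1]` which exchanges `s` and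
its complement (in the units).

`rho_ne`: the numerator is `2 π i exp(..) ≠ 0`; `betaIntegral x y ≠ 0` for real `x, y > 0`
(`Complex.Gamma_mul_Gamma_eq_betaIntegral` and `Complex.Gamma_ne_zero_of_re_pos`), and
`al + be - 1 > 0` for `u ∈ Phi` (it is `(x + y - q)/q`).
-/

set_option autoImplicit false

namespace LTG

open Finset Pool.Agent.Helper34.LT

private theorem g0_mem (q a b u : ℕ) (hq : q.Prime) :
    u ∈ Phi q a b ↔ (1 ≤ u ∧ u < q) ∧ q < (u * a) % q + (u * b) % q := by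
  rw [Phi, mem_filter, mem_Icc]
  have h0 := hq.pos
  constructor
  · rintro ⟨⟨h1, h2⟩, h3⟩
    exact ⟨⟨h1, by omega⟩, h3⟩
  · rintro ⟨⟨h1, h2⟩, h3⟩
    exact ⟨⟨h1, by omega⟩, h3⟩

private theorem g0_sub (q a u : ℕ) (hq : q.Prime) (ha : ¬ q ∣ a) (h1 : 1 ≤ u) (h2 : u < q) :
    0 < (u * a) % q ∧ (u * a) % q < q ∧ ((q - u) * a) % q + (u * a) % q = q := by
  have h0 := hq.pos
  have hA : 0 < (u * a) % q := by
    rw [Nat.pos_iff_ne_zero]
    intro h
    rcases (Nat.Prime.dvd_mul hq).1 (Nat.dvd_of_mod_eq_zero h) with h3 | h3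
    · exact Nat.not_dvd_of_pos_of_lt h1 h2 h3
    · exact ha h3
  have hA2 : (u * a) % q < q := Nat.mod_lt _ h0
  have hX2 : ((q - u) * a) % q < q := Nat.mod_lt _ h0
  refine ⟨hA, hA2, ?_⟩
  have h3 : (((q - u) * a) % q + (u * a) % q) % q = 0 := by
    rw [← Nat.add_mod, ← add_mul, Nat.sub_add_cancel h2.le, Nat.mul_mod_right]
  obtain ⟨c, hc⟩ := Nat.dvd_of_mod_eq_zero h3
  have hc1 : c < 2 := by
    by_contra h
    have : q * 2 ≤ q * c := Nat.mul_le_mul_left q (by omega)
    omega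
  have hc0 : c ≠ 0 := by
    rintro rfl
    omega
  have : c = 1 := by omega
  rw [this, mul_one] at hc
  exact hc

theorem mem_Phi_sub (q a b : ℕ) (hq : q.Prime) (ha : ¬ q ∣ a) (hb : ¬ q ∣ b) (hab : ¬ q ∣ a + b)
    (u : ℕ) (h1 : 1 ≤ u) (h2 : u < q) : u ∈ Phi q a b ↔ q - u ∉ Phi q a b := by
  rw [g0_mem q a b u hq, g0_mem q a b (q - u) hq]
  obtain ⟨a1, a2, a3⟩ := g0_sub q a u hq ha h1 h2
  obtain ⟨b1, b2, b3⟩ := g0_sub q b u hq hb h1 h2
  have h3 : (u * a) % q + (u * b) % q ≠ q := by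
    intro h
    have h4 : (u * (a + b)) % q = 0 := by
      rw [mul_add, Nat.add_mod, h, Nat.mod_self]
    rcases (Nat.Prime.dvd_mul hq).1 (Nat.dvd_of_mod_eq_zero h4) with h5 | h5
    · exact Nat.not_dvd_of_pos_of_lt h1 h2 h5
    · exact hab h5
  have h4 : (1 ≤ q - u ∧ q - u < q) := by omega
  have h5 : (1 ≤ u ∧ u < q) := ⟨h1, h2⟩
  simp only [h4, h5, true_and, and_self]
  omega

theorem hs_Phi (q a b : ℕ) (hq : q.Prime) (hq3 : 3 ≤ q) (ha : ¬ q ∣ a) (hb : ¬ q ∣ b)
    (hab : ¬ q ∣ a + b) : HS q (Phi q a b) := by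
  refine ⟨hq3, ?_, ?_⟩
  · intro u hu
    obtain ⟨⟨h1, h2⟩, -⟩ := (g0_mem q a b u hq).1 hu
    exact ⟨h1, h2, ((Nat.Prime.coprime_iff_not_dvd hq).2
      (Nat.not_dvd_of_pos_of_lt h1 h2)).symm⟩
  · intro u h1 h2 _
    exact mem_Phi_sub q a b hq ha hb hab u h1 h2

theorem card_HS (q : ℕ) (s : Finset ℕ) (hs : HS q s) : 2 * s.card = q.totient := by
  have h3 := hs.three
  have hU : ∀ u, u ∈ (range q).filter (fun u => Nat.Coprime q u) ↔
      1 ≤ u ∧ u < q ∧ Nat.Coprime u q := by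
    intro u
    rw [mem_filter, mem_range]
    constructor
    · rintro ⟨h1, h2⟩
      refine ⟨?_, h1, h2.symm⟩
      by_contra h
      have h0 : u = 0 := by omega
      rw [h0, Nat.coprime_zero_right] at h2
      omega
    · rintro ⟨_, h1, h2⟩
      exact ⟨h1, h2.symm⟩
  have hsub : ∀ u, 1 ≤ u → u < q → Nat.Coprime u q → Nat.Coprime (q - u) q := by
    intro u h1 h2 h
    exact (Nat.coprime_self_sub_left h2.le).2 h
  have h1 : ((range q).filter (fun u => Nat.Coprime q u)).filter (fun u => u ∈ s) = s := by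
    ext u
    rw [mem_filter, hU]
    exact ⟨fun h => h.2, fun h => ⟨hs.mem u h, h⟩⟩
  have h2 : (((range q).filter (fun u => Nat.Coprime q u)).filter (fun u => u ∉ s)).card =
      s.card := by
    refine Finset.card_bij' (fun u _ => q - u) (fun u _ => q - u) ?_ ?_ ?_ ?_
    · intro u hu
      rw [mem_filter, hU] at hu
      by_contra h
      exact hu.2 ((hs.half u hu.1.1 hu.1.2.1 hu.1.2.2).2 h)
    · intro u hu
      obtain ⟨a1, a2, a3⟩ := hs.mem u hu
      rw [mem_filter, hU]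
      exact ⟨⟨by omega, by omega, hsub u a1 a2 a3⟩, (hs.half u a1 a2 a3).1 hu⟩
    · intro u hu
      rw [mem_filter, hU] at hu
      show q - (q - u) = u
      omega
    · intro u hu
      have h := hs.mem u hu
      show q - (q - u) = u
      omega
  have h4 := card_filter_add_card_filter_not (s := (range q).filter (fun u => Nat.Coprime q u))
    (fun u => u ∈ s)
  rw [h1, h2, ← Nat.totient_eq_card_coprime] at h4
  omega

theorem card_Phi (q a b : ℕ) (hq : q.Prime) (hq3 : 3 ≤ q) (ha : ¬ q ∣ a) (hb : ¬ q ∣ b)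
    (hab : ¬ q ∣ a + b) : (Phi q a b).card = (q - 1) / 2 := by
  have h1 : (Icc 1 (q - 1)).filter (fun u => u ∈ Phi q a b) = Phi q a b := by
    ext u
    rw [mem_filter, mem_Icc]
    constructor
    · exact fun h => h.2
    · intro h
      have := ((g0_mem q a b u hq).1 h).1
      exact ⟨⟨this.1, by omega⟩, h⟩
  have h2 : ((Icc 1 (q - 1)).filter (fun u => u ∉ Phi q a b)).card = (Phi q a b).card := by
    refine Finset.card_bij' (fun u _ => q - u) (fun u _ => q - u) ?_ ?_ ?_ ?_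
    · intro u hu
      rw [mem_filter, mem_Icc] at hu
      by_contra h
      exact hu.2 ((mem_Phi_sub q a b hq ha hb hab u hu.1.1 (by omega)).2 h)
    · intro u hu
      have h := ((g0_mem q a b u hq).1 hu).1
      rw [mem_filter, mem_Icc]
      exact ⟨by omega, (mem_Phi_sub q a b hq ha hb hab u h.1 h.2).1 hu⟩
    · intro u hu
      rw [mem_filter, mem_Icc] at hu
      show q - (q - u) = u
      omega
    · intro u hu
      have h := ((g0_mem q a b u hq).1 hu).1
      show q - (q - u) = u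
      omega
  have h3 := card_filter_add_card_filter_not (s := Icc 1 (q - 1)) (fun u => u ∈ Phi q a b)
  rw [h1, h2, Nat.card_Icc] at h3
  omega

theorem rho_ne (q a b u : ℕ) (hq : q.Prime) (ha : ¬ q ∣ a) (hb : ¬ q ∣ b) (hab : ¬ q ∣ a + b)
    (hu : u ∈ Phi q a b) : rho q a b u ≠ 0 := by
  clear hab
  have hq0 : (0 : ℝ) < q := by exact_mod_cast hq.pos
  obtain ⟨⟨h1, h2⟩, h3⟩ := (g0_mem q a b u hq).1 hu
  obtain ⟨a1, a2, -⟩ := g0_sub q a u hq ha h1 h2
  obtain ⟨b1, b2, -⟩ := g0_sub q b u hq hb h1 h2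
  have ha0 : 0 < al q a u := by
    unfold al
    have : (0 : ℝ) < ((u * a) % q : ℕ) := by exact_mod_cast a1
    positivity
  have hb0 : 0 < al q b u := by
    unfold al
    have : (0 : ℝ) < ((u * b) % q : ℕ) := by exact_mod_cast b1
    positivity
  have hc0 : 1 < al q a u + al q b u := by
    unfold al
    rw [← add_div, one_lt_div hq0]
    exact_mod_cast h3
  have hB : Complex.betaIntegral (al q a u) (al q b u) ≠ 0 := by
    have h5 := Complex.Gamma_mul_Gamma_eq_betaIntegral (s := (al q a u : ℂ)) (t := (al q b u : ℂ))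
      (by simpa using ha0) (by simpa using hb0)
    intro h6
    rw [h6, mul_zero] at h5
    rcases mul_eq_zero.1 h5 with h7 | h7
    · exact Complex.Gamma_ne_zero_of_re_pos (by simpa using ha0) h7
    · exact Complex.Gamma_ne_zero_of_re_pos (by simpa using hb0) h7
  have hD : ((al q a u : ℂ) + (al q b u : ℂ) - 1) ≠ 0 := by
    have h5 : al q a u + al q b u - 1 ≠ 0 := by linarith
    have h6 : (((al q a u + al q b u - 1 : ℝ)) : ℂ) ≠ 0 := by exact_mod_cast h5
    push_cast at h6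
    exact h6
  unfold rho
  refine div_ne_zero (mul_ne_zero (mul_ne_zero (mul_ne_zero two_ne_zero ?_) Complex.I_ne_zero)
    (Complex.exp_ne_zero _)) (mul_ne_zero hB hD)
  exact_mod_cast Real.pi_ne_zero

end LTG
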