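import Pool.Agent.Helper4.LT.Ch

/-!
# LT, block G, piece G3: the lattice `lamS (ℤ[X])` in `ℂ^s`

Let `d = q.totient = 2 card s` (`card_HS`).

`real_indep`: the `d` vectors `lamS (X^j)`, `0 ≤ j < d`, are linearly independent over `ℝ`: if
`∑ x_j ρ_u zeta^(u j) = 0` for all `u ∈ s`, then `∑ x_j zeta^(u j) = 0`, and by
conjugation also for `q - u`; so the polynomial `∑ x_j X^j` of degree `< d` has the `d`
distinct roots `zeta^u`, `1 ≤ u ≤ q - 1` prime to `q` (`HS.half`), hence is `0`
(`Polynomial.card_roots'`, or `Matrix.eq_zero_of_forall_index_sum_pow_mul_eq_zero`).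

`real_basis`: as `finrank ℝ (ℂ^s) = 2 card s = d` they are a basis, the coordinates are
continuous (finite dimension) and so bounded by `C ‖z‖`.

`cocompact`: round the coordinates to integers: `n_j = ⌊x_j⌋`.

`discrete`: if `P ∈ ℤ[X]`, reduce modulo the cyclotomic polynomial `Φ_q` (monic of degree `d`,
`Polynomial.modByMonic`; `Φ_q (zeta^u) = 0` for `u ∈ s`): `lamS P = lamS R`,
`R = ∑_{j<d} n_j X^j` with integers `n_j`. The coordinates of `lamS P` are the `n_j` (unique by
`real_indep`), bounded by `C ‖lamS P‖ < 1` if `‖lamS P‖ < 1/C`, so all `n_j = 0`.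
-/

set_option autoImplicit false

namespace LTG

open Finset Pool.Agent.Helper34.LT

/-- the polynomial with the coefficients `x` is zero if it vanishes at the units -/
private theorem g3_poly (q : ℕ) (hq : q ≠ 0) (x : Fin q.totient → ℂ)
    (h : ∀ v, v < q → Nat.Coprime v q → ∑ j : Fin q.totient, x j * (zt q ^ v) ^ (j : ℕ) = 0) :
    x = 0 := by
  set p : Polynomial ℂ := ∑ j : Fin q.totient, Polynomial.C (x j) * Polynomial.X ^ (j : ℕ) with hp
  have h1 : p = 0 := by
    refine Polynomial.eq_zero_of_degree_lt_of_eval_finset_eq_zero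
      (((Finset.range q).filter fun v => Nat.Coprime q v).image fun v => zt q ^ v) ?_ ?_
    · rw [Finset.card_image_of_injOn, ← Nat.totient_eq_card_coprime]
      · exact Polynomial.degree_sum_fin_lt x
      · intro v hv w hw hvw
        exact (zt_prim q hq).pow_inj (Finset.mem_range.1 (Finset.mem_filter.1 hv).1)
          (Finset.mem_range.1 (Finset.mem_filter.1 hw).1) hvw
    · intro z hz
      obtain ⟨v, hv, rfl⟩ := Finset.mem_image.1 hz
      rw [hp, Polynomial.eval_finsetSum]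
      refine (Finset.sum_congr rfl fun j _ => ?_).trans (h v
        (Finset.mem_range.1 (Finset.mem_filter.1 hv).1) (Finset.mem_filter.1 hv).2.symm)
      rw [Polynomial.eval_mul, Polynomial.eval_C, Polynomial.eval_pow, Polynomial.eval_X]
  funext j
  have h2 := congrArg (fun r : Polynomial ℂ => r.coeff (j : ℕ)) h1
  simp only [hp, Polynomial.finsetSum_coeff, Polynomial.coeff_C_mul_X_pow,
    Polynomial.coeff_zero] at h2
  rw [Finset.sum_eq_single j (fun i _ hi => if_neg fun h' => hi (Fin.ext h'.symm))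
    (fun h' => absurd (Finset.mem_univ j) h'), if_pos rfl] at h2
  exact h2

theorem real_indep (q : ℕ) (s : Finset ℕ) (hs : HS q s) (ρ : ℕ → ℂ) (hρ : ∀ u ∈ s, ρ u ≠ 0)
    (x : Fin q.totient → ℝ)
    (h : ∑ j : Fin q.totient, (x j : ℂ) • lamS q s ρ (Polynomial.X ^ (j : ℕ)) = 0) : x = 0 := by
  have h3 := hs.three
  have hq : q ≠ 0 := by omega
  have h1 : ∀ u ∈ s, ∑ j : Fin q.totient, (x j : ℂ) * (zt q ^ u) ^ (j : ℕ) = 0 := by
    intro u hu
    have h2 := congrFun h ⟨u, hu⟩
    rw [Finset.sum_apply, Pi.zero_apply] at h2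
    have h4 : ∀ j : Fin q.totient, ((x j : ℂ) • lamS q s ρ (Polynomial.X ^ (j : ℕ))) ⟨u, hu⟩ =
        ρ u * ((x j : ℂ) * (zt q ^ u) ^ (j : ℕ)) := by
      intro j
      rw [Pi.smul_apply, smul_eq_mul]
      change (x j : ℂ) * (ρ u * pt q s (Polynomial.X ^ (j : ℕ)) ⟨u, hu⟩) = _
      rw [pt_X_pow, ← pow_mul]
      ring
    rw [Finset.sum_congr rfl fun j _ => h4 j, ← Finset.mul_sum] at h2
    exact (mul_eq_zero.1 h2).resolve_left (hρ u hu)
  have h5 : (fun j => (x j : ℂ)) = 0 := by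
    refine g3_poly q hq _ fun v hv hc => ?_
    have hv1 : 1 ≤ v := by
      rcases Nat.eq_zero_or_pos v with h0 | h0
      · subst h0
        rw [Nat.coprime_zero_left] at hc
        omega
      · exact h0
    by_cases hvs : v ∈ s
    · exact h1 v hvs
    · have hvs' : q - v ∈ s := by
        by_contra h'
        exact hvs ((hs.half v hv1 hv hc).2 h')
      have h6 := congrArg (starRingEnd ℂ) (h1 _ hvs')
      rw [map_zero, map_sum] at h6
      refine (Finset.sum_congr rfl fun j _ => ?_).trans h6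
      rw [map_mul, map_pow, conj_zt_pow q _ hq (Nat.sub_le _ _), Complex.conj_ofReal,
        Nat.sub_sub_self hv.le]
  funext j
  have h7 := congrFun h5 j
  exact Complex.ofReal_eq_zero.1 h7

/-- the real linear map with the images `lam (X^j)` of the basis vectors -/
private noncomputable def g3T (q : ℕ) (s : Finset ℕ) (ρ : ℕ → ℂ) :
    (Fin q.totient → ℝ) →ₗ[ℝ] (s → ℂ) where
  toFun x := ∑ j : Fin q.totient, (x j : ℂ) • lamS q s ρ (Polynomial.X ^ (j : ℕ))
  map_add' x y := by
    rw [← Finset.sum_add_distrib]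
    refine Finset.sum_congr rfl fun j _ => ?_
    rw [Pi.add_apply, Complex.ofReal_add, add_smul]
  map_smul' c x := by
    rw [Finset.smul_sum]
    refine Finset.sum_congr rfl fun j _ => ?_
    rw [Pi.smul_apply, smul_eq_mul, Complex.ofReal_mul, mul_smul, RingHom.id_apply]
    rfl

theorem real_basis (q : ℕ) (s : Finset ℕ) (hs : HS q s) (ρ : ℕ → ℂ) (hρ : ∀ u ∈ s, ρ u ≠ 0) :
    ∃ C : ℝ, 0 < C ∧ ∀ z : s → ℂ, ∃ x : Fin q.totient → ℝ,
      z = ∑ j : Fin q.totient, (x j : ℂ) • lamS q s ρ (Polynomial.X ^ (j : ℕ)) ∧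
        ∀ j, |x j| ≤ C * ‖z‖ := by
  have h3 := hs.three
  have hinj : Function.Injective (g3T q s ρ) := by
    rw [← LinearMap.ker_eq_bot, LinearMap.ker_eq_bot']
    intro x hx
    exact real_indep q s hs ρ hρ x hx
  have hfin : Module.finrank ℝ (Fin q.totient → ℝ) = Module.finrank ℝ (s → ℂ) := by
    rw [Module.finrank_fin_fun, Module.finrank_pi_fintype, Finset.sum_const, Finset.card_univ,
      Fintype.card_coe, Complex.finrank_real_complex, smul_eq_mul, mul_comm]
    exact (card_HS q s hs).symm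
  have hbij : Function.Bijective (g3T q s ρ) :=
    ⟨hinj, (LinearMap.injective_iff_surjective_of_finrank_eq_finrank hfin).1 hinj⟩
  set e := LinearEquiv.ofBijective (g3T q s ρ) hbij with he
  set L : (s → ℂ) →L[ℝ] (Fin q.totient → ℝ) :=
    LinearMap.toContinuousLinearMap e.symm.toLinearMap with hL
  refine ⟨‖L‖ + 1, by positivity, fun z => ⟨L z, ?_, fun j => ?_⟩⟩
  · exact (e.apply_symm_apply z).symm
  · have h5 : ‖L z‖ ≤ ‖L‖ * ‖z‖ := L.le_opNorm z
    have h6 : ‖L z j‖ ≤ ‖L z‖ := norm_le_pi_norm (L z) j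
    rw [Real.norm_eq_abs] at h6
    have h7 := norm_nonneg z
    nlinarith

/-- every point is near a lattice point, with a bound for the integer coordinates -/
theorem cocompact (q : ℕ) (s : Finset ℕ) (hs : HS q s) (ρ : ℕ → ℂ) (hρ : ∀ u ∈ s, ρ u ≠ 0) :
    ∃ C : ℝ, 0 < C ∧ ∀ z : s → ℂ, ∃ n : Fin q.totient → ℤ,
      ‖z - ∑ j : Fin q.totient, (n j : ℂ) • lamS q s ρ (Polynomial.X ^ (j : ℕ))‖ ≤ C ∧
        ∀ j, |(n j : ℝ)| ≤ C * (1 + ‖z‖) := by
  obtain ⟨C, hC, h⟩ := real_basis q s hs ρ hρ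
  set V : ℝ := ∑ j : Fin q.totient, ‖lamS q s ρ (Polynomial.X ^ (j : ℕ))‖ with hV
  have hV0 : 0 ≤ V := Finset.sum_nonneg fun j _ => norm_nonneg _
  refine ⟨C + 1 + V, by positivity, fun z => ?_⟩
  obtain ⟨x, hx, hxC⟩ := h z
  refine ⟨fun j => ⌊x j⌋, ?_, fun j => ?_⟩
  · have h4 : z - ∑ j : Fin q.totient, ((⌊x j⌋ : ℤ) : ℂ) • lamS q s ρ (Polynomial.X ^ (j : ℕ)) =
        ∑ j : Fin q.totient, ((Int.fract (x j) : ℝ) : ℂ) •
          lamS q s ρ (Polynomial.X ^ (j : ℕ)) := by
      conv_lhs => rw [hx]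
      rw [← Finset.sum_sub_distrib]
      refine Finset.sum_congr rfl fun j _ => ?_
      rw [← sub_smul]
      congr 1
      rw [Int.fract]
      push_cast
      rfl
    rw [h4]
    refine (norm_sum_le _ _).trans ?_
    have h5 : ∀ j : Fin q.totient, ‖((Int.fract (x j) : ℝ) : ℂ) •
        lamS q s ρ (Polynomial.X ^ (j : ℕ))‖ ≤ ‖lamS q s ρ (Polynomial.X ^ (j : ℕ))‖ := by
      intro j
      rw [norm_smul, Complex.norm_real, Real.norm_of_nonneg (Int.fract_nonneg _)]
      exact mul_le_of_le_one_left (norm_nonneg _) (Int.fract_lt_one _).le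
    have h6 := Finset.sum_le_sum fun j (_ : j ∈ Finset.univ) => h5 j
    linarith
  · have h7 : |((⌊x j⌋ : ℤ) : ℝ)| ≤ |x j| + 1 := by
      have h8 := Int.floor_le (x j)
      have h9 := Int.lt_floor_add_one (x j)
      rw [abs_le]
      constructor
      · have := neg_abs_le (x j)
        linarith
      · have := le_abs_self (x j)
        linarith
    have h8 := hxC j
    have h9 := norm_nonneg z
    have h10 : 0 ≤ V * (1 + ‖z‖) := by positivity
    nlinarith

theorem discrete (q : ℕ) (s : Finset ℕ) (hs : HS q s) (ρ : ℕ → ℂ) (hρ : ∀ u ∈ s, ρ u ≠ 0) :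
    ∃ ε : ℝ, 0 < ε ∧ ∀ P : Polynomial ℤ, ‖lamS q s ρ P‖ < ε → lamS q s ρ P = 0 := by
  have h3 := hs.three
  obtain ⟨C, hC, h⟩ := real_basis q s hs ρ hρ
  refine ⟨1 / C, by positivity, fun P hP => ?_⟩
  have hq : 0 < q := by omega
  set R := P %ₘ Polynomial.cyclotomic q ℤ with hR
  have hmon := Polynomial.cyclotomic.monic q ℤ
  have hdeg : R.natDegree < q.totient := by
    have h4 := Polynomial.natDegree_modByMonic_lt P hmon (by
      intro h1
      have h5 := congrArg Polynomial.natDegree h1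
      rw [Polynomial.natDegree_cyclotomic, Polynomial.natDegree_one] at h5
      exact absurd h5 (Nat.totient_pos.2 hq).ne')
    rwa [Polynomial.natDegree_cyclotomic] at h4
  -- the remainder has the same image
  have h5 : lamS q s ρ P = lamS q s ρ R := by
    funext u
    change ρ u * Polynomial.aeval (zt q ^ (u : ℕ)) P = ρ u * Polynomial.aeval (zt q ^ (u : ℕ)) R
    congr 1
    have h6 : (Polynomial.aeval (zt q ^ (u : ℕ))) (Polynomial.cyclotomic q ℤ) = 0 := by
      have h7 := (zt_prim q hq.ne').pow_of_coprime (u : ℕ) (hs.mem u u.2).2.2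
      have h8 := h7.isRoot_cyclotomic hq
      rw [Polynomial.IsRoot.def] at h8
      rw [Polynomial.aeval_def, Polynomial.eval₂_eq_eval_map, algebraMap_int_eq,
        Polynomial.map_cyclotomic_int]
      exact h8
    conv_lhs => rw [← Polynomial.modByMonic_add_div P (Polynomial.cyclotomic q ℤ)]
    rw [map_add, map_mul, h6, zero_mul, add_zero]
  have h6 : lamS q s ρ R = ∑ j : Fin q.totient, ((R.coeff (j : ℕ) : ℤ) : ℂ) •
      lamS q s ρ (Polynomial.X ^ (j : ℕ)) := by
    conv_lhs => rw [Polynomial.as_sum_range' R q.totient hdeg]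
    rw [lamS_sum, Finset.sum_range]
    refine Finset.sum_congr rfl fun j _ => ?_
    rw [← lamS_zsmul]
    congr 1
    rw [← Polynomial.C_mul_X_pow_eq_monomial, zsmul_eq_mul, eq_intCast Polynomial.C]
  obtain ⟨x, hx, hxC⟩ := h (lamS q s ρ P)
  have h7 : (fun j : Fin q.totient => x j - ((R.coeff (j : ℕ) : ℤ) : ℝ)) = 0 := by
    refine real_indep q s hs ρ hρ _ ?_
    have h8 : ∑ j : Fin q.totient, ((x j - ((R.coeff (j : ℕ) : ℤ) : ℝ) : ℝ) : ℂ) •
        lamS q s ρ (Polynomial.X ^ (j : ℕ)) = lamS q s ρ P - lamS q s ρ R := by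
      conv_rhs => rw [hx, h6]
      rw [← Finset.sum_sub_distrib]
      refine Finset.sum_congr rfl fun j _ => ?_
      rw [← sub_smul]
      congr 1
      push_cast
      rfl
    rw [h8, h5, sub_self]
  have h8 : ∀ j : Fin q.totient, R.coeff (j : ℕ) = 0 := by
    intro j
    have h9 : x j = ((R.coeff (j : ℕ) : ℤ) : ℝ) := sub_eq_zero.1 (congrFun h7 j)
    have h10 : |x j| < 1 := by
      refine (hxC j).trans_lt ?_
      have h11 := mul_lt_mul_of_pos_left hP hC
      rwa [mul_one_div_cancel hC.ne'] at h11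
    rw [h9, ← Int.cast_abs] at h10
    have h11 : |R.coeff (j : ℕ)| < 1 := by exact_mod_cast h10
    exact Int.abs_lt_one_iff.1 h11
  rw [h5, h6]
  exact Finset.sum_eq_zero fun j _ => by rw [h8 j, Int.cast_zero, zero_smul]

end LTG
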