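import Pool.Agent.Helper4.LT.La

/-!
# LT, block G, piece G11: growth of quasi-periodic functions

Let `v_j = lamS (X^j)`, `j < q.totient`, `l_j z = ∑ κ_u conj(zeta^(u j)) z_u`, `c_j = c (X^j)`; there
is `K ≥ 0` with `‖l_j z‖ ≤ K ‖z‖`, `‖c_j‖ ≤ K`, `‖v_j‖ ≤ K`. From `F (z + v_j) = exp (l_j z + c_j) F z`
we get by induction on `n ∈ ℕ`: `‖F (z ± n v_j)‖ ≤ exp (n K (‖z‖ + n K + 1)) ‖F z‖` (for the minus
sign: `F (z - v_j) = exp (- l_j (z - v_j) - c_j) F z`). By `cocompact`, `z = z₀ + ∑ n_j v_j`,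
`‖z₀‖ ≤ C`, `|n_j| ≤ C (1 + ‖z‖)`. Add the vectors one after the other: all intermediate points
have norm `≤ C + q.totient C (1 + ‖z‖) K`, so `‖F z‖ ≤ exp (C' (1 + ‖z‖)^2) ‖F z₀‖`, `F` is bounded
on the ball of radius `C` (continuous, compact), `(1 + ‖z‖)^2 ≤ 2 (1 + ‖z‖^2)`, and a constant factor
`M` is absorbed because `M ≤ exp M ≤ exp (M (1 + ‖z‖^2))`.
-/

set_option autoImplicit false

namespace LTG

open Finset Pool.Agent.Helper34.LT

private theorem G11_up {V : Type} [NormedAddCommGroup V] [NormedSpace ℂ V] (F : V → ℂ) (v : V)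
    (K : ℝ) (h : ∀ z, ∃ w : ℂ, F (z + v) = Complex.exp w * F z ∧ ‖w‖ ≤ K * (‖z‖ + 1)) (y : V) :
    ‖F (y + v)‖ ≤ Real.exp (K * (‖y‖ + 1)) * ‖F y‖ := by
  obtain ⟨w, h1, h2⟩ := h y
  rw [h1, norm_mul, Complex.norm_exp]
  exact mul_le_mul_of_nonneg_right
    (Real.exp_le_exp.2 ((Complex.re_le_norm w).trans h2)) (norm_nonneg _)

private theorem G11_dn {V : Type} [NormedAddCommGroup V] [NormedSpace ℂ V] (F : V → ℂ) (v : V)
    (K : ℝ) (h : ∀ z, ∃ w : ℂ, F (z + v) = Complex.exp w * F z ∧ ‖w‖ ≤ K * (‖z‖ + 1)) (y : V) :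
    ‖F y‖ ≤ Real.exp (K * (‖y‖ + 1)) * ‖F (y + v)‖ := by
  obtain ⟨w, h1, h2⟩ := h y
  have h3 : F y = Complex.exp (-w) * F (y + v) := by
    rw [h1, ← mul_assoc, ← Complex.exp_add, neg_add_cancel, Complex.exp_zero, one_mul]
  calc ‖F y‖ = ‖Complex.exp (-w)‖ * ‖F (y + v)‖ := by rw [← norm_mul, ← h3]
    _ ≤ Real.exp (K * (‖y‖ + 1)) * ‖F (y + v)‖ := by
      refine mul_le_mul_of_nonneg_right ?_ (norm_nonneg _)
      rw [Complex.norm_exp]
      refine Real.exp_le_exp.2 ((Complex.re_le_norm _).trans ?_)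
      rwa [norm_neg]

private theorem G11_nat {V : Type} [NormedAddCommGroup V] [NormedSpace ℂ V] (F : V → ℂ) (v : V)
    (K : ℝ) (hv : ‖v‖ ≤ K)
    (h : ∀ z, ∃ w : ℂ, F (z + v) = Complex.exp w * F z ∧ ‖w‖ ≤ K * (‖z‖ + 1)) (z : V) (n : ℕ) :
    ‖F (z + (n : ℂ) • v)‖ ≤ Real.exp (n * K * (‖z‖ + n * K + 1)) * ‖F z‖ ∧
      ‖F (z - (n : ℂ) • v)‖ ≤ Real.exp (n * K * (‖z‖ + n * K + 1)) * ‖F z‖ := by
  have hK : 0 ≤ K := (norm_nonneg v).trans hv
  have hz := norm_nonneg z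
  induction n with
  | zero => simp
  | succ n ih =>
    have hn : (0 : ℝ) ≤ n := Nat.cast_nonneg n
    have hnv : ‖(n : ℂ) • v‖ ≤ n * K := by
      rw [norm_smul, Complex.norm_natCast]
      exact mul_le_mul_of_nonneg_left hv hn
    have hnv' : ‖((n + 1 : ℕ) : ℂ) • v‖ ≤ (n + 1) * K := by
      rw [norm_smul, Complex.norm_natCast]
      push_cast
      exact mul_le_mul_of_nonneg_left hv (by linarith)
    have hexp : Real.exp (K * (‖z‖ + (n + 1) * K + 1)) * Real.exp (n * K * (‖z‖ + n * K + 1)) ≤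
        Real.exp ((n + 1) * K * (‖z‖ + (n + 1) * K + 1)) := by
      rw [← Real.exp_add]
      apply Real.exp_le_exp.2
      nlinarith [mul_nonneg hn (mul_nonneg hK hK)]
    have hF := norm_nonneg (F z)
    constructor
    · have e : z + ((n + 1 : ℕ) : ℂ) • v = (z + (n : ℂ) • v) + v := by
        push_cast
        rw [add_smul, one_smul, add_assoc]
      have h1 := G11_up F v K h (z + (n : ℂ) • v)
      have h2 : K * (‖z + (n : ℂ) • v‖ + 1) ≤ K * (‖z‖ + (n + 1) * K + 1) := by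
        have h3 := norm_add_le z ((n : ℂ) • v)
        exact mul_le_mul_of_nonneg_left (by linarith) hK
      rw [e]
      push_cast
      calc ‖F (z + (n : ℂ) • v + v)‖
          ≤ Real.exp (K * (‖z + (n : ℂ) • v‖ + 1)) * ‖F (z + (n : ℂ) • v)‖ := h1
        _ ≤ Real.exp (K * (‖z‖ + (n + 1) * K + 1)) *
            (Real.exp (n * K * (‖z‖ + n * K + 1)) * ‖F z‖) :=
          mul_le_mul (Real.exp_le_exp.2 h2) ih.1 (norm_nonneg _) (Real.exp_pos _).le
        _ ≤ _ := by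
          rw [← mul_assoc]
          exact mul_le_mul_of_nonneg_right hexp hF
    · have e : z - ((n + 1 : ℕ) : ℂ) • v + v = z - (n : ℂ) • v := by
        push_cast
        rw [add_smul, one_smul]
        abel
      have h1 := G11_dn F v K h (z - ((n + 1 : ℕ) : ℂ) • v)
      rw [e] at h1
      have h2 : K * (‖z - ((n + 1 : ℕ) : ℂ) • v‖ + 1) ≤ K * (‖z‖ + (n + 1) * K + 1) := by
        have h3 := norm_sub_le z (((n + 1 : ℕ) : ℂ) • v)
        exact mul_le_mul_of_nonneg_left (by linarith) hK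
      calc ‖F (z - ((n + 1 : ℕ) : ℂ) • v)‖
          ≤ Real.exp (K * (‖z - ((n + 1 : ℕ) : ℂ) • v‖ + 1)) * ‖F (z - (n : ℂ) • v)‖ := h1
        _ ≤ Real.exp (K * (‖z‖ + (n + 1) * K + 1)) *
            (Real.exp (n * K * (‖z‖ + n * K + 1)) * ‖F z‖) :=
          mul_le_mul (Real.exp_le_exp.2 h2) ih.2 (norm_nonneg _) (Real.exp_pos _).le
        _ ≤ Real.exp (((n + 1 : ℕ) : ℝ) * K * (‖z‖ + ((n + 1 : ℕ) : ℝ) * K + 1)) * ‖F z‖ := by
          rw [← mul_assoc]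
          push_cast
          exact mul_le_mul_of_nonneg_right hexp hF

private theorem G11_int {V : Type} [NormedAddCommGroup V] [NormedSpace ℂ V] (F : V → ℂ) (v : V)
    (K N : ℝ) (hv : ‖v‖ ≤ K)
    (h : ∀ z, ∃ w : ℂ, F (z + v) = Complex.exp w * F z ∧ ‖w‖ ≤ K * (‖z‖ + 1)) (z : V) (n : ℤ)
    (hn : |(n : ℝ)| ≤ N) :
    ‖F (z + (n : ℂ) • v)‖ ≤ Real.exp (N * K * (‖z‖ + N * K + 1)) * ‖F z‖ := by
  have hK : 0 ≤ K := (norm_nonneg v).trans hv
  have hz := norm_nonneg z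
  have key : ∀ m : ℕ, (m : ℝ) ≤ N → Real.exp (m * K * (‖z‖ + m * K + 1)) ≤
      Real.exp (N * K * (‖z‖ + N * K + 1)) := by
    intro m hm
    have hm0 : (0 : ℝ) ≤ m := Nat.cast_nonneg m
    have h1 : (m : ℝ) * K ≤ N * K := mul_le_mul_of_nonneg_right hm hK
    have h0 : 0 ≤ (m : ℝ) * K := mul_nonneg hm0 hK
    apply Real.exp_le_exp.2
    exact mul_le_mul h1 (by linarith) (by linarith) (h0.trans h1)
  rcases Int.eq_nat_or_neg n with ⟨m, rfl | rfl⟩
  · have h1 := (G11_nat F v K hv h z m).1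
    have h2 : (m : ℝ) ≤ N := by
      rw [Int.cast_natCast, Nat.abs_cast] at hn
      exact hn
    rw [Int.cast_natCast]
    exact h1.trans (mul_le_mul_of_nonneg_right (key m h2) (norm_nonneg _))
  · have h1 := (G11_nat F v K hv h z m).2
    have h2 : (m : ℝ) ≤ N := by
      rw [Int.cast_neg, abs_neg, Int.cast_natCast, Nat.abs_cast] at hn
      exact hn
    have e : z + ((-(m : ℤ) : ℤ) : ℂ) • v = z - (m : ℂ) • v := by
      push_cast
      rw [neg_smul, sub_eq_add_neg]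
    rw [e]
    exact h1.trans (mul_le_mul_of_nonneg_right (key m h2) (norm_nonneg _))

private theorem G11_sum {V : Type} [NormedAddCommGroup V] [NormedSpace ℂ V] (F : V → ℂ) {J : Type}
    [DecidableEq J] (v : J → V) (K N : ℝ) (hN : 0 ≤ N) (hK : 0 ≤ K) (hv : ∀ j, ‖v j‖ ≤ K)
    (h : ∀ j z, ∃ w : ℂ, F (z + v j) = Complex.exp w * F z ∧ ‖w‖ ≤ K * (‖z‖ + 1)) (z : V)
    (n : J → ℤ) (hn : ∀ j, |(n j : ℝ)| ≤ N) (s : Finset J) :
    ‖z + ∑ j ∈ s, (n j : ℂ) • v j‖ ≤ ‖z‖ + #s * (N * K) ∧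
    ‖F (z + ∑ j ∈ s, (n j : ℂ) • v j)‖ ≤
      Real.exp (#s * (N * K) * (‖z‖ + #s * (N * K) + 1)) * ‖F z‖ := by
  have hNK : 0 ≤ N * K := mul_nonneg hN hK
  have hz := norm_nonneg z
  induction s using Finset.induction_on with
  | empty => simp
  | insert j s hj ih =>
    have hs : (0 : ℝ) ≤ #s := Nat.cast_nonneg _
    have e : z + ∑ i ∈ insert j s, (n i : ℂ) • v i =
        (z + ∑ i ∈ s, (n i : ℂ) • v i) + (n j : ℂ) • v j := by
      rw [Finset.sum_insert hj]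
      abel
    have h1 : ‖(n j : ℂ) • v j‖ ≤ N * K := by
      rw [norm_smul, Complex.norm_intCast]
      exact mul_le_mul (hn j) (hv j) (norm_nonneg _) hN
    rw [e, Finset.card_insert_of_notMem hj]
    push_cast
    constructor
    · have h2 := norm_add_le (z + ∑ i ∈ s, (n i : ℂ) • v i) ((n j : ℂ) • v j)
      linarith [ih.1]
    · have h2 := G11_int F (v j) K N (hv j) (h j) (z + ∑ i ∈ s, (n i : ℂ) • v i) (n j) (hn j)
      have h3 : N * K * (‖z + ∑ i ∈ s, (n i : ℂ) • v i‖ + N * K + 1) ≤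
          N * K * (‖z‖ + (#s + 1) * (N * K) + 1) :=
        mul_le_mul_of_nonneg_left (by linarith [ih.1]) hNK
      calc ‖F (z + ∑ i ∈ s, (n i : ℂ) • v i + (n j : ℂ) • v j)‖
          ≤ Real.exp (N * K * (‖z + ∑ i ∈ s, (n i : ℂ) • v i‖ + N * K + 1)) *
            ‖F (z + ∑ i ∈ s, (n i : ℂ) • v i)‖ := h2
        _ ≤ Real.exp (N * K * (‖z‖ + (#s + 1) * (N * K) + 1)) *
            (Real.exp (#s * (N * K) * (‖z‖ + #s * (N * K) + 1)) * ‖F z‖) :=
          mul_le_mul (Real.exp_le_exp.2 h3) ih.2 (norm_nonneg _) (Real.exp_pos _).le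
        _ ≤ _ := by
          rw [← mul_assoc, ← Real.exp_add]
          refine mul_le_mul_of_nonneg_right (Real.exp_le_exp.2 ?_) (norm_nonneg _)
          nlinarith [mul_nonneg hs (mul_nonneg hNK hNK)]

private theorem G11_final {T x A B M : ℝ} (hT : T = 1 + x) (hx : 0 ≤ x) (hA : 0 ≤ A) (hB : 0 ≤ B)
    (hM : 0 ≤ M) :
    Real.exp (A * T * (B + A * T)) * M ≤ Real.exp ((2 * (A * (B + A)) + M) * (1 + x ^ 2)) := by
  have hT1 : 1 ≤ T := by linarith
  have h1 : A * T * (B + A * T) ≤ A * (B + A) * T ^ 2 := by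
    have h2 : B ≤ B * T := le_mul_of_one_le_right hB hT1
    have h3 : 0 ≤ A * T := by positivity
    have h4 := mul_le_mul_of_nonneg_left h2 h3
    nlinarith
  have h2 : T ^ 2 ≤ 2 * (1 + x ^ 2) := by
    rw [hT]
    nlinarith [sq_nonneg (1 - x)]
  have h3 : A * (B + A) * T ^ 2 ≤ A * (B + A) * (2 * (1 + x ^ 2)) :=
    mul_le_mul_of_nonneg_left h2 (by positivity)
  have h4 : M ≤ Real.exp (M * (1 + x ^ 2)) := by
    have h5 := Real.add_one_le_exp (M * (1 + x ^ 2))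
    have h6 : 0 ≤ M * x ^ 2 := by positivity
    linarith
  calc Real.exp (A * T * (B + A * T)) * M
      ≤ Real.exp (A * (B + A) * (2 * (1 + x ^ 2))) * Real.exp (M * (1 + x ^ 2)) :=
        mul_le_mul (Real.exp_le_exp.2 (h1.trans h3)) h4 hM (Real.exp_pos _).le
    _ = _ := by
      rw [← Real.exp_add]
      congr 1
      ring

theorem growth (q : ℕ) (s : Finset ℕ) (hs : HS q s) (ρ : ℕ → ℂ) (hρ : ∀ u ∈ s, ρ u ≠ 0)
    (κ : s → ℂ) (c : Polynomial ℤ → ℂ)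
    (F : (s → ℂ) → ℂ) (hF : Continuous F) (h : QPS q s ρ κ c F) :
    ∃ C : ℝ, ∀ z, ‖F z‖ ≤ Real.exp (C * (1 + ‖z‖ ^ 2)) := by
  classical
  obtain ⟨C, hC, hcc⟩ := cocompact q s hs ρ hρ
  -- the constants
  obtain ⟨Kj, hKj⟩ : ∃ Kj : Fin q.totient → ℝ, ∀ j, Kj j =
      (∑ u, ‖κ u‖ * ‖(starRingEnd ℂ) (pt q _ (Polynomial.X ^ (j : ℕ)) u)‖) +
        ‖c (Polynomial.X ^ (j : ℕ))‖ + ‖lamS q s ρ (Polynomial.X ^ (j : ℕ))‖ := ⟨_, fun j => rfl⟩
  have hKj1 : ∀ j, 0 ≤ ∑ u : s,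
      ‖κ u‖ * ‖(starRingEnd ℂ) (pt q _ (Polynomial.X ^ (j : ℕ)) u)‖ := fun j =>
    Finset.sum_nonneg fun u _ => by positivity
  have hKj0 : ∀ j, 0 ≤ Kj j := by
    intro j
    rw [hKj]
    have := hKj1 j
    positivity
  obtain ⟨K, hK⟩ : ∃ K : ℝ, K = ∑ j, Kj j := ⟨_, rfl⟩
  have hKle : ∀ j, Kj j ≤ K := by
    intro j
    rw [hK]
    exact Finset.single_le_sum (fun i _ => hKj0 i) (Finset.mem_univ j)
  have hK0 : 0 ≤ K := by
    rw [hK]
    exact Finset.sum_nonneg fun j _ => hKj0 j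
  have hv : ∀ j : Fin q.totient, ‖lamS q s ρ (Polynomial.X ^ (j : ℕ))‖ ≤ K := by
    intro j
    refine le_trans ?_ (hKle j)
    rw [hKj]
    have := hKj1 j
    have := norm_nonneg (c (Polynomial.X ^ (j : ℕ)))
    linarith
  have hw : ∀ (j : Fin q.totient) (z : s → ℂ), ∃ w : ℂ,
      F (z + lamS q s ρ (Polynomial.X ^ (j : ℕ))) = Complex.exp w * F z ∧
        ‖w‖ ≤ K * (‖z‖ + 1) := by
    intro j z
    refine ⟨_, h (Polynomial.X ^ (j : ℕ)) z, ?_⟩
    have hz := norm_nonneg z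
    have h1 : ‖∑ u, κ u * (starRingEnd ℂ) (pt q _ (Polynomial.X ^ (j : ℕ)) u) * z u‖ ≤
        (∑ u, ‖κ u‖ * ‖(starRingEnd ℂ) (pt q _ (Polynomial.X ^ (j : ℕ)) u)‖) * ‖z‖ := by
      refine (norm_sum_le _ _).trans ?_
      rw [Finset.sum_mul]
      refine Finset.sum_le_sum fun u _ => ?_
      rw [norm_mul, norm_mul]
      exact mul_le_mul_of_nonneg_left (norm_le_pi_norm z u) (by positivity)
    have h2 := norm_add_le (∑ u, κ u * (starRingEnd ℂ) (pt q _ (Polynomial.X ^ (j : ℕ)) u) * z u)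
      (c (Polynomial.X ^ (j : ℕ)))
    have h4 := hKj1 j
    have h5 := norm_nonneg (c (Polynomial.X ^ (j : ℕ)))
    have h6 := norm_nonneg (lamS q s ρ (Polynomial.X ^ (j : ℕ)))
    have h7 := mul_le_mul_of_nonneg_right (hKle j) (by linarith : 0 ≤ ‖z‖ + 1)
    rw [hKj] at h7
    refine le_trans (h2.trans (add_le_add_left h1 _)) (le_trans ?_ h7)
    nlinarith [mul_nonneg h5 hz, mul_nonneg h6 hz]
  -- bound on the ball
  obtain ⟨M, hM⟩ := (isCompact_closedBall (0 : s → ℂ) C).exists_bound_of_continuousOn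
    hF.continuousOn
  have hM0 : 0 ≤ M := (norm_nonneg _).trans (hM 0 (Metric.mem_closedBall_self hC.le))
  refine ⟨2 * ((q.totient * (C * K)) * ((C + 1) + q.totient * (C * K))) + M, fun z => ?_⟩
  obtain ⟨n, hn1, hn2⟩ := hcc z
  have hz := norm_nonneg z
  have h1 := (G11_sum F (fun j : Fin q.totient => lamS q s ρ (Polynomial.X ^ (j : ℕ))) K
    (C * (1 + ‖z‖)) (by positivity) hK0 hv hw
    (z - ∑ j : Fin q.totient, (n j : ℂ) • lamS q s ρ (Polynomial.X ^ (j : ℕ))) n hn2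
    Finset.univ).2
  rw [sub_add_cancel, Finset.card_univ, Fintype.card_fin] at h1
  have h2 := hM _ (mem_closedBall_zero_iff.2 hn1)
  have hnn : (0 : ℝ) ≤ (q.totient : ℝ) * (C * K) := by positivity
  have h4 := G11_final (T := 1 + ‖z‖) (x := ‖z‖) (A := q.totient * (C * K)) (B := C + 1)
    (M := M) rfl hz hnn (by linarith) hM0
  refine h1.trans (le_trans ?_ h4)
  refine mul_le_mul (Real.exp_le_exp.2 ?_) h2 (norm_nonneg _) (Real.exp_pos _).le
  have e : (q.totient : ℝ) * (C * (1 + ‖z‖) * K) = q.totient * (C * K) * (1 + ‖z‖) := by ring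
  rw [e]
  have h5 : 0 ≤ (q.totient : ℝ) * (C * K) * (1 + ‖z‖) := by positivity
  exact mul_le_mul_of_nonneg_left (by linarith) h5

end LTG
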