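import Mathlib

/-!
# LT, block G, piece G4: entire functions on `ℂ^ι` via restriction to complex lines

`line`: composition of differentiable maps.

`eq_zero_of_eventually`: for `z` put `v = z - p`; `s ↦ F (p + s v)` is entire on `ℂ` and zero near
`s = 0`, so it is zero (`AnalyticOnNhd.eq_of_eventuallyEq` with `Differentiable.analyticAt`), at
`s = 1` this is `F z = 0`.

`exists_ne₂`: if `F z = 0` whenever `G z ≠ 0`: `G ≠ 0` near some point, so `F = 0` near it, so `F = 0`.

`exists_ne_list`: induction on the list (the product of the first ones is entire).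

`eq_of_zero_deriv`: constant on a ball if the derivative is zero there
(`Convex.is_const_of_fderivWithin_eq_zero` or the mean value inequality).
-/

set_option autoImplicit false

namespace LTG

open Finset

theorem line {ι : Type} [Fintype ι] {F : (ι → ℂ) → ℂ} (hF : Differentiable ℂ F) (p v : ι → ℂ) :
    Differentiable ℂ (fun s : ℂ => F (p + s • v)) :=
  hF.comp ((differentiable_const p).add (differentiable_id.smul_const v))

theorem eq_zero_of_eventually {ι : Type} [Fintype ι] {F : (ι → ℂ) → ℂ} (hF : Differentiable ℂ F)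
    (p : ι → ℂ) (h : ∀ᶠ z in nhds p, F z = 0) (z : ι → ℂ) : F z = 0 := by
  have h1 : AnalyticOnNhd ℂ (fun s : ℂ => F (p + s • (z - p))) Set.univ :=
    fun s _ => (line hF p (z - p)).analyticAt s
  have h2 : AnalyticOnNhd ℂ (fun _ : ℂ => (0 : ℂ)) Set.univ := fun s _ => analyticAt_const
  have h3 : Filter.Tendsto (fun s : ℂ => p + s • (z - p)) (nhds 0) (nhds p) := by
    have h4 : Continuous (fun s : ℂ => p + s • (z - p)) := by fun_prop
    have h5 := h4.tendsto 0
    rw [zero_smul, add_zero] at h5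
    exact h5
  have h6 : (fun s : ℂ => F (p + s • (z - p))) =ᶠ[nhds 0] fun _ => (0 : ℂ) := h3.eventually h
  have h7 := congrFun (h1.eq_of_eventuallyEq h2 h6) 1
  simpa using h7

theorem exists_ne₂ {ι : Type} [Fintype ι] {F G : (ι → ℂ) → ℂ} (hF : Differentiable ℂ F)
    (hG : Differentiable ℂ G) (h1 : ∃ z, F z ≠ 0) (h2 : ∃ z, G z ≠ 0) :
    ∃ z, F z ≠ 0 ∧ G z ≠ 0 := by
  obtain ⟨p, hp⟩ := h1
  obtain ⟨q, hq⟩ := h2
  by_contra hcon
  refine hq (eq_zero_of_eventually hG p ?_ q)
  filter_upwards [hF.continuous.continuousAt.eventually_ne hp] with z hz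
  by_contra hz'
  exact hcon ⟨z, hz, hz'⟩

theorem exists_ne₃ {ι : Type} [Fintype ι] {F G H : (ι → ℂ) → ℂ} (hF : Differentiable ℂ F)
    (hG : Differentiable ℂ G) (hH : Differentiable ℂ H) (h1 : ∃ z, F z ≠ 0) (h2 : ∃ z, G z ≠ 0)
    (h3 : ∃ z, H z ≠ 0) : ∃ z, F z ≠ 0 ∧ G z ≠ 0 ∧ H z ≠ 0 := by
  obtain ⟨p, hp1, hp2⟩ := exists_ne₂ hF hG h1 h2
  obtain ⟨z, hz1, hz2⟩ := exists_ne₂ (hF.mul hG) hH ⟨p, mul_ne_zero hp1 hp2⟩ h3
  exact ⟨z, left_ne_zero_of_mul hz1, right_ne_zero_of_mul hz1, hz2⟩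

private theorem g4_lin {ι : Type} [Fintype ι] (l : (ι → ℂ) →ₗ[ℂ] ℂ) (c : ℂ) :
    Differentiable ℂ (fun z => Complex.exp (l z + c)) := by
  have h1 : Differentiable ℂ (fun z => l z) := (LinearMap.toContinuousLinearMap l).differentiable
  exact (h1.add_const c).cexp

/-- an exponential of a linear form which is constant where `F ≠ 0` -/
theorem exp_unique {ι : Type} [Fintype ι] {F : (ι → ℂ) → ℂ} (hF : Differentiable ℂ F)
    (hne : ∃ z, F z ≠ 0) (l l' : (ι → ℂ) →ₗ[ℂ] ℂ) (c c' : ℂ)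
    (h : ∀ z, Complex.exp (l z + c) * F z = Complex.exp (l' z + c') * F z) :
    l = l' ∧ Complex.exp c = Complex.exp c' := by
  obtain ⟨p, hp⟩ := hne
  have hD : Differentiable ℂ (fun z => Complex.exp (l z + c) - Complex.exp (l' z + c')) :=
    (g4_lin l c).sub (g4_lin l' c')
  have h1 : ∀ z, Complex.exp (l z + c) - Complex.exp (l' z + c') = 0 := by
    refine eq_zero_of_eventually hD p ?_
    filter_upwards [hF.continuous.continuousAt.eventually_ne hp] with z hz
    exact sub_eq_zero.2 (mul_right_cancel₀ hz (h z))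
  have h2 : Complex.exp c = Complex.exp c' := by
    have h3 := sub_eq_zero.1 (h1 0)
    rwa [map_zero, map_zero, zero_add, zero_add] at h3
  refine ⟨?_, h2⟩
  refine LinearMap.ext fun v => ?_
  by_contra hv
  have hw : l v - l' v ≠ 0 := sub_ne_zero.2 hv
  have h4 := sub_eq_zero.1 (h1 ((l v - l' v)⁻¹ • v))
  rw [map_smul, map_smul, smul_eq_mul, smul_eq_mul, Complex.exp_add, Complex.exp_add, h2] at h4
  have h5 := mul_right_cancel₀ (Complex.exp_ne_zero c') h4
  have h6 : Complex.exp 1 = 1 := by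
    have h7 : (1 : ℂ) = (l v - l' v)⁻¹ * l v - (l v - l' v)⁻¹ * l' v := by
      rw [← mul_sub, inv_mul_cancel₀ hw]
    rw [h7, Complex.exp_sub, h5, div_self (Complex.exp_ne_zero _)]
    exact h7
  have h8 : Real.exp 1 = 1 := by
    have h9 := congrArg (fun z : ℂ => ‖z‖) h6
    simp [Complex.norm_exp] at h9
  exact one_ne_zero (Real.exp_eq_one_iff 1 |>.1 h8)

end LTG
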