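import Pool.Agent.Helper4.LT.La
import Pool.Agent.Helper4.LT.Mv

/-!
# LT, block G, piece G10: no nonzero entire function with `F 0 = 0` and constant multipliers

Let `F (z + lamS P) = exp (c_P) F z` for all `P`. Let `v_j = lamS (X^j)`, `j < q.totient`, an
`ℝ`-basis of `ℂ^s` (`real_indep`, `real_basis`). There is a real linear `r : ℂ^s → ℝ` with
`r (v_j) = Re (c (X^j))` (the coordinates are real linear: e.g. make a `Module.Basis` over `ℝ` from
`real_indep` and `real_basis`, `Basis.constr`). `h (z) = r z - i r (i z)` is complex linear with real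
part `r` (`LinearMap.extendTo𝕜'`/`Module.Dual.extendRCLike`, or by hand). Put `G z = F z exp (-h z)`;
then `‖G (z + v_j)‖ = ‖G z‖`, so by induction `‖G (z + ∑ n_j v_j)‖ = ‖G z‖` for integers `n_j`. By
`cocompact` every `z` is `z₀ + ∑ n_j v_j` with `‖z₀‖ ≤ C`; `G` is continuous, so bounded, so constant
(`Differentiable.apply_eq_apply_of_bounded`). As `F 0 = 0`, `G = 0` and `F = 0`.
-/

set_option autoImplicit false

namespace LTG

open Finset Pool.Agent.Helper34.LT

/-- a real linear form is the real part of a complex linear form -/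
private theorem g10_ext {s : Finset ℕ} (r : (s → ℂ) →ₗ[ℝ] ℝ) :
    ∃ h : (s → ℂ) → ℂ, Differentiable ℂ h ∧ ∀ z, (h z).re = r z := by
  classical
  refine ⟨fun z => ∑ u, (⟨r (Pi.single u 1), -r (Pi.single u Complex.I)⟩ : ℂ) * z u, ?_,
    fun z => ?_⟩
  · refine Differentiable.fun_sum fun u _ => ?_
    exact (differentiable_apply u).const_mul _
  · have h1 : z = ∑ u, ((z u).re • (Pi.single u (1 : ℂ) : s → ℂ) +
        (z u).im • (Pi.single u Complex.I : s → ℂ)) := by
      funext v
      rw [Finset.sum_apply, Finset.sum_eq_single v]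
      · rw [Pi.add_apply, Pi.smul_apply, Pi.smul_apply, Pi.single_eq_same, Pi.single_eq_same,
          Complex.real_smul, Complex.real_smul, mul_one, Complex.re_add_im]
      · intro u _ hu
        rw [Pi.add_apply, Pi.smul_apply, Pi.smul_apply, Pi.single_eq_of_ne hu.symm,
          Pi.single_eq_of_ne hu.symm, smul_zero, smul_zero, add_zero]
      · intro h2
        exact absurd (Finset.mem_univ v) h2
    conv_rhs => rw [h1]
    rw [map_sum, Complex.re_sum]
    refine Finset.sum_congr rfl fun u _ => ?_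
    rw [map_add, map_smul, map_smul, smul_eq_mul, smul_eq_mul, Complex.mul_re]
    ring

theorem liouville (q : ℕ) (s : Finset ℕ) (hs : HS q s) (ρ : ℕ → ℂ) (hρ : ∀ u ∈ s, ρ u ≠ 0)
    (c : Polynomial ℤ → ℂ) (F : (s → ℂ) → ℂ) (hF : Differentiable ℂ F) (h0 : F 0 = 0)
    (h : ∀ (P : Polynomial ℤ) (z : s → ℂ), F (z + lamS q s ρ P) = Complex.exp (c P) * F z)
    (z : s → ℂ) : F z = 0 := by
  classical
  obtain ⟨T, hT⟩ : ∃ T : (Fin q.totient → ℝ) →ₗ[ℝ] (s → ℂ), ∀ x,
      T x = ∑ j : Fin q.totient, (x j : ℂ) • lamS q s ρ (Polynomial.X ^ (j : ℕ)) := by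
    refine ⟨{ toFun := fun x => ∑ j : Fin q.totient,
                (x j : ℂ) • lamS q s ρ (Polynomial.X ^ (j : ℕ)),
              map_add' := ?_, map_smul' := ?_ }, fun x => rfl⟩
    · intro x y
      rw [← Finset.sum_add_distrib]
      refine Finset.sum_congr rfl fun j _ => ?_
      rw [Pi.add_apply, Complex.ofReal_add, add_smul]
    · intro a x
      rw [Finset.smul_sum]
      refine Finset.sum_congr rfl fun j _ => ?_
      rw [Pi.smul_apply, smul_eq_mul, Complex.ofReal_mul, mul_smul, RingHom.id_apply]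
      rfl
  have hinj : Function.Injective T := by
    rw [← LinearMap.ker_eq_bot, LinearMap.ker_eq_bot']
    intro x hx
    rw [hT] at hx
    exact real_indep q s hs ρ hρ x hx
  have hsur : Function.Surjective T := by
    obtain ⟨C, _, hC⟩ := real_basis q s hs ρ hρ
    intro y
    obtain ⟨x, hx, _⟩ := hC y
    exact ⟨x, by rw [hT]; exact hx.symm⟩
  obtain ⟨r, hr⟩ : ∃ r : (s → ℂ) →ₗ[ℝ] ℝ, ∀ j : Fin q.totient,
      r (lamS q s ρ (Polynomial.X ^ (j : ℕ))) = (c (Polynomial.X ^ (j : ℕ))).re := by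
    obtain ⟨r0, hr0⟩ : ∃ r0 : (Fin q.totient → ℝ) →ₗ[ℝ] ℝ, ∀ x,
        r0 x = ∑ j : Fin q.totient, x j * (c (Polynomial.X ^ (j : ℕ))).re := by
      refine ⟨{ toFun := fun x => ∑ j : Fin q.totient, x j * (c (Polynomial.X ^ (j : ℕ))).re,
                map_add' := ?_, map_smul' := ?_ }, fun x => rfl⟩
      · intro x y
        rw [← Finset.sum_add_distrib]
        refine Finset.sum_congr rfl fun j _ => ?_
        rw [Pi.add_apply, add_mul]
      · intro a x
        rw [RingHom.id_apply, smul_eq_mul, Finset.mul_sum]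
        refine Finset.sum_congr rfl fun j _ => ?_
        rw [Pi.smul_apply, smul_eq_mul, mul_assoc]
    refine ⟨r0.comp (LinearEquiv.ofBijective T ⟨hinj, hsur⟩).symm.toLinearMap, fun j => ?_⟩
    have h1 : T (Pi.single j 1) = lamS q s ρ (Polynomial.X ^ (j : ℕ)) := by
      rw [hT, Finset.sum_eq_single j]
      · rw [Pi.single_eq_same, Complex.ofReal_one, one_smul]
      · intro i _ hi
        rw [Pi.single_eq_of_ne hi, Complex.ofReal_zero, zero_smul]
      · intro h2
        exact absurd (Finset.mem_univ j) h2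
    have h2 : (LinearEquiv.ofBijective T ⟨hinj, hsur⟩).symm
        (lamS q s ρ (Polynomial.X ^ (j : ℕ))) = Pi.single j 1 := by
      rw [LinearEquiv.symm_apply_eq]
      exact h1.symm
    rw [LinearMap.comp_apply, LinearEquiv.coe_toLinearMap, h2, hr0, Finset.sum_eq_single j]
    · rw [Pi.single_eq_same, one_mul]
    · intro i _ hi
      rw [Pi.single_eq_of_ne hi, zero_mul]
    · intro h2
      exact absurd (Finset.mem_univ j) h2
  obtain ⟨l, hld, hlr⟩ := g10_ext r
  obtain ⟨G, hG⟩ : ∃ G : (s → ℂ) → ℂ, ∀ z, G z = F z * Complex.exp (-l z) :=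
    ⟨fun z => F z * Complex.exp (-l z), fun z => rfl⟩
  have hGd : Differentiable ℂ G := by
    have h1 : G = fun z => F z * Complex.exp (-l z) := funext hG
    rw [h1]
    exact hF.mul hld.neg.cexp
  have hGn : ∀ z, ‖G z‖ = ‖F z‖ * Real.exp (-r z) := by
    intro z
    rw [hG, norm_mul, Complex.norm_exp, Complex.neg_re, hlr]
  have hstep : ∀ (j : Fin q.totient) z,
      ‖G (z + lamS q s ρ (Polynomial.X ^ (j : ℕ)))‖ = ‖G z‖ := by
    intro j z
    rw [hGn, hGn, h, norm_mul, Complex.norm_exp, map_add, hr, neg_add, Real.exp_add, Real.exp_neg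
      (c (Polynomial.X ^ (j : ℕ))).re]
    have := (Real.exp_pos (c (Polynomial.X ^ (j : ℕ))).re).ne'
    field_simp
  obtain ⟨S, hS⟩ : ∃ S : AddSubgroup (s → ℂ), ∀ v, v ∈ S ↔ ∀ z, ‖G (z + v)‖ = ‖G z‖ := by
    refine ⟨{ carrier := {v | ∀ z, ‖G (z + v)‖ = ‖G z‖}, add_mem' := ?_, zero_mem' := ?_,
              neg_mem' := ?_ }, fun v => Iff.rfl⟩
    · intro a b ha hb z
      rw [← add_assoc, hb, ha]
    · intro z
      rw [add_zero]
    · intro a ha z
      have h1 := ha (z + -a)
      rw [neg_add_cancel_right] at h1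
      exact h1.symm
  obtain ⟨C, hC0, hC⟩ := cocompact q s hs ρ hρ
  obtain ⟨B, hB⟩ := (isCompact_closedBall (0 : s → ℂ) C).exists_bound_of_continuousOn
    hGd.continuous.continuousOn
  have hbd : ∀ z, ‖G z‖ ≤ B := by
    intro z
    obtain ⟨n, hn, _⟩ := hC z
    have h1 : ∑ j : Fin q.totient, (n j : ℂ) • lamS q s ρ (Polynomial.X ^ (j : ℕ)) ∈ S := by
      refine S.sum_mem fun j _ => ?_
      have h2 : ((n j : ℤ) : ℂ) • lamS q s ρ (Polynomial.X ^ (j : ℕ)) =
          n j • lamS q s ρ (Polynomial.X ^ (j : ℕ)) := Int.cast_smul_eq_zsmul ℂ _ _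
      rw [h2]
      exact S.zsmul_mem ((hS _).2 (hstep j)) _
    have h3 := (hS _).1 h1
      (z - ∑ j : Fin q.totient, (n j : ℂ) • lamS q s ρ (Polynomial.X ^ (j : ℕ)))
    rw [sub_add_cancel] at h3
    rw [h3]
    refine hB _ ?_
    rw [mem_closedBall_zero_iff]
    exact hn
  have hbdd : Bornology.IsBounded (Set.range G) := by
    rw [isBounded_iff_forall_norm_le]
    refine ⟨B, ?_⟩
    rintro _ ⟨z, rfl⟩
    exact hbd z
  have h4 := hGd.apply_eq_apply_of_bounded hbdd z 0
  rw [hG, hG, h0, zero_mul] at h4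
  exact (mul_eq_zero.1 h4).resolve_right (Complex.exp_ne_zero _)

end LTG
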