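import Pool.Agent.Helper4.LT.Mv
import Pool.Agent.Helper34.LT.Df

/-!
# LT, block G, piece G15: linear independence of the monomials

`poly_zero`: a polynomial function of `g` variables with exponents `≤ L` which vanishes near a point
has all coefficients zero: as a function of all `y` it is differentiable, so zero everywhere
(`eq_zero_of_eventually`), so it is the zero `MvPolynomial` (`MvPolynomial.funext`).

`mon_indep`: `h_i = f_i / f0` is defined and differentiable near `z0`, with derivative at `z0`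
`(f0 z0)⁻¹ • (fderiv f_i z0 - (f_i z0 / f0 z0) • fderiv f0 z0)`, these `g = card ι` linear forms are
independent, so the derivative of `h = (h_i)_i : ℂ^ι → ℂ^g` at `z0` is a bijective linear map. `h` is
differentiable on a neighbourhood over `ℂ`; strict differentiability at `z0`: `h` is `C^1` near `z0`
(`diff_dir` shows that `fderiv` of an entire function is continuous: `contDiff_one_iff_fderiv`), so
`HasStrictFDerivAt`, and `HasStrictFDerivAt.map_nhds_eq_of_equiv` (or
`map_nhds_eq_of_surj`) says that `h` maps neighbourhoods of `z0` to neighbourhoods of `h z0`.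
Now let `∑_e c_e mon_e = 0`. Where `f0 ≠ 0`, `mon_e = f0^(gL) ∏ h_i^(e_i)` (`∑ e_i ≤ g L`), so the
polynomial `∑ c_e y^e` vanishes at `y = h z`, `z` near `z0`, i.e. on a neighbourhood of `h z0`. By
`poly_zero` all `c_e = 0`.
-/

set_option autoImplicit false

namespace LTG

open Finset Pool.Agent.Helper34.LT

theorem poly_zero (g L : ℕ) (c : (Fin g → Fin (L + 1)) → ℂ) (p : Fin g → ℂ)
    (h : ∀ᶠ y in nhds p, ∑ e, c e * ∏ i, y i ^ (e i : ℕ) = 0) : c = 0 := by
  classical
  have hF : Differentiable ℂ (fun y : Fin g → ℂ => ∑ e, c e * ∏ i, y i ^ (e i : ℕ)) := by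
    fun_prop
  have h0 := eq_zero_of_eventually hF p h
  let m : (Fin g → Fin (L + 1)) → (Fin g →₀ ℕ) :=
    fun e => Finsupp.equivFunOnFinite.symm fun i => (e i : ℕ)
  have hm : ∀ e i, m e i = (e i : ℕ) := fun e i => rfl
  have hinj : Function.Injective m := by
    intro e e' he
    funext i
    have := DFunLike.congr_fun he i
    rw [hm, hm] at this
    exact Fin.ext this
  have hP : (∑ e, MvPolynomial.monomial (m e) (c e) : MvPolynomial (Fin g) ℂ) = 0 := by
    apply MvPolynomial.funext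
    intro y
    rw [map_sum, map_zero, ← h0 y]
    refine Finset.sum_congr rfl fun e _ => ?_
    rw [MvPolynomial.eval_monomial, Finsupp.prod_fintype _ _ fun i => pow_zero _]
    rfl
  funext e
  have h1 := congrArg (MvPolynomial.coeff (m e)) hP
  rw [MvPolynomial.coeff_sum, MvPolynomial.coeff_zero, Finset.sum_eq_single e] at h1
  · rwa [MvPolynomial.coeff_monomial, if_pos rfl] at h1
  · intro e' _ hne
    rw [MvPolynomial.coeff_monomial, if_neg fun hh => hne (hinj hh)]
  · intro hh
    exact absurd (Finset.mem_univ e) hh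

private theorem mo_surj {ι : Type} [Fintype ι] {g : ℕ} {l : Fin g → (ι → ℂ) →L[ℂ] ℂ}
    (hl : LinearIndependent ℂ l) :
    (↑(ContinuousLinearMap.pi l) : (ι → ℂ) →ₗ[ℂ] (Fin g → ℂ)).range = ⊤ := by
  by_contra hne
  obtain ⟨φ, hφ, hle⟩ := Submodule.exists_le_ker_of_lt_top _ (lt_top_iff_ne_top.2 hne)
  have h1 : ∑ i, φ (Pi.single i 1) • l i = 0 := by
    ext v
    have h2 : φ (fun i => l i v) = 0 := hle ⟨v, rfl⟩
    have h3 : (fun i => l i v) = ∑ i, l i v • (Pi.single i (1 : ℂ) : Fin g → ℂ) := by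
      funext j
      simp [Finset.sum_apply, Pi.single_apply]
    rw [h3, map_sum] at h2
    simp only [map_smul, smul_eq_mul] at h2
    simp only [_root_.sum_apply, smul_apply, smul_eq_mul, zero_apply]
    rw [← h2]
    exact Finset.sum_congr rfl fun i _ => mul_comm _ _
  have h2 := Fintype.linearIndependent_iff.1 hl _ h1
  apply hφ
  apply LinearMap.pi_ext'
  intro i
  ext
  simpa using h2 i

theorem mon_indep {ι : Type} [Fintype ι] (g : ℕ) (hg : Fintype.card ι = g)
    (f0 : (ι → ℂ) → ℂ) (f : Fin g → (ι → ℂ) → ℂ) (h0 : ContDiff ℂ 1 f0)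
    (hf : ∀ i, ContDiff ℂ 1 (f i)) (z0 : ι → ℂ) (hz : f0 z0 ≠ 0)
    (hli : LinearIndependent ℂ
      (fun i => fderiv ℂ (f i) z0 - (f i z0 / f0 z0) • fderiv ℂ f0 z0)) (L : ℕ) :
    LinearIndependent ℂ (fun e : Fin g → Fin (L + 1) => mon g L f0 f e) := by
  classical
  have hne : ∀ᶠ z in nhds z0, f0 z ≠ 0 := h0.continuous.continuousAt.eventually_ne hz
  -- the quotients
  have hcd : ∀ i, ContDiffAt ℂ 1 (fun z => f i z / f0 z) z0 := fun i =>
    (hf i).contDiffAt.div h0.contDiffAt hz
  have hst : ∀ i, HasStrictFDerivAt (fun z => f i z / f0 z)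
      (fderiv ℂ (fun z => f i z / f0 z) z0) z0 := fun i =>
    (hcd i).hasStrictFDerivAt one_ne_zero
  have hder : ∀ i, f0 z0 • fderiv ℂ (fun z => f i z / f0 z) z0 =
      fderiv ℂ (f i) z0 - (f i z0 / f0 z0) • fderiv ℂ f0 z0 := by
    intro i
    have h1 : HasFDerivAt (fun z => f i z / f0 z * f0 z)
        ((f i z0 / f0 z0) • fderiv ℂ f0 z0 + f0 z0 • fderiv ℂ (fun z => f i z / f0 z) z0) z0 :=
      (hst i).hasFDerivAt.mul ((h0.differentiable one_ne_zero) z0).hasFDerivAt
    have h2 : (fun z => f i z / f0 z * f0 z) =ᶠ[nhds z0] f i := by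
      filter_upwards [hne] with z hz
      rw [div_mul_cancel₀ _ hz]
    have h3 := h2.fderiv_eq (𝕜 := ℂ)
    rw [h1.fderiv] at h3
    rw [← h3]
    abel
  have hli' : LinearIndependent ℂ fun i => fderiv ℂ (fun z => f i z / f0 z) z0 := by
    rw [Fintype.linearIndependent_iff] at hli ⊢
    intro a ha i
    refine hli a ?_ i
    have h1 : ∀ i, a i • (fderiv ℂ (f i) z0 - (f i z0 / f0 z0) • fderiv ℂ f0 z0) =
        f0 z0 • (a i • fderiv ℂ (fun z => f i z / f0 z) z0) := by
      intro i
      rw [← hder i, smul_comm]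
    simp only [h1]
    rw [← Finset.smul_sum, ha, smul_zero]
  have hmap := HasStrictFDerivAt.map_nhds_eq_of_surj (hasStrictFDerivAt_pi.2 hst) (mo_surj hli')
  rw [Fintype.linearIndependent_iff]
  intro c hc
  have hev : ∀ᶠ z in nhds z0, ∑ e, c e * ∏ i, (f i z / f0 z) ^ (e i : ℕ) = 0 := by
    filter_upwards [hne] with z hz
    have h1 : f0 z ^ (g * L) * ∑ e, c e * ∏ i, (f i z / f0 z) ^ (e i : ℕ) = 0 := by
      have h2 := congrFun hc z
      rw [Finset.sum_apply] at h2
      simp only [Pi.smul_apply, smul_eq_mul, Pi.zero_apply] at h2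
      rw [← h2, Finset.mul_sum]
      refine Finset.sum_congr rfl fun e _ => ?_
      have h3 : ∑ i, (e i : ℕ) ≤ g * L := by
        calc ∑ i, (e i : ℕ) ≤ ∑ _i : Fin g, L :=
              Finset.sum_le_sum fun i _ => Nat.lt_succ_iff.1 (e i).2
          _ = g * L := by simp
      have h4 : ∏ i, (f i z / f0 z) ^ (e i : ℕ) =
          (∏ i, f i z ^ (e i : ℕ)) / f0 z ^ (∑ i, (e i : ℕ)) := by
        rw [← Finset.prod_pow_eq_pow_sum, ← Finset.prod_div_distrib]
        exact Finset.prod_congr rfl fun i _ => div_pow _ _ _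
      rw [mon, h4]
      have h5 : f0 z ^ (g * L) = f0 z ^ (g * L - ∑ i, (e i : ℕ)) * f0 z ^ (∑ i, (e i : ℕ)) := by
        rw [← pow_add, Nat.sub_add_cancel h3]
      rw [h5]
      have h6 : f0 z ^ (∑ i, (e i : ℕ)) ≠ 0 := pow_ne_zero _ hz
      field_simp
    exact (mul_eq_zero.1 h1).resolve_left (pow_ne_zero _ hz)
  have hev' : ∀ᶠ y in Filter.map (fun z i => f i z / f0 z) (nhds z0),
      ∑ e, c e * ∏ i, y i ^ (e i : ℕ) = 0 := Filter.eventually_map.2 hev
  rw [hmap] at hev'
  have := poly_zero g L c _ hev'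
  intro e
  rw [this]
  rfl

end LTG
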