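import Pool.Agent.Helper34.LT.Df

/-!
# LT, block G: abstract setting

`s` is a half system of units modulo `q`, `ρ u ≠ 0` are scales.
-/

set_option autoImplicit false

namespace LTG

open Finset Pool.Agent.Helper34.LT

noncomputable section

/-- half system: of two units `u`, `q - u` exactly one is in `s` -/
structure HS (q : ℕ) (s : Finset ℕ) : Prop where
  three : 3 ≤ q
  mem : ∀ u ∈ s, 1 ≤ u ∧ u < q ∧ Nat.Coprime u q
  half : ∀ u, 1 ≤ u → u < q → Nat.Coprime u q → (u ∈ s ↔ q - u ∉ s)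

/-- lattice points -/
def lamS (q : ℕ) (s : Finset ℕ) (ρ : ℕ → ℂ) (P : Polynomial ℤ) : s → ℂ :=
  fun u => ρ u * pt q s P u

/-- quasi-periodicity with the normalised multipliers -/
def QPS (q : ℕ) (s : Finset ℕ) (ρ : ℕ → ℂ) (κ : s → ℂ) (c : Polynomial ℤ → ℂ)
    (F : (s → ℂ) → ℂ) : Prop :=
  ∀ (P : Polynomial ℤ) (z : s → ℂ),
    F (z + lamS q s ρ P) =
      Complex.exp (∑ u, κ u * (starRingEnd ℂ) (pt q s P u) * z u + c P) * F z

end

end LTG
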