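import Pool.Agent.Helper4.LT.Ch
import Pool.Agent.Helper4.LT.Mv
import Pool.Agent.Helper4.LT.Gd
import Pool.Agent.Helper59.LT.Gx

/-!
# LT, block G, piece G9: integrality of the pairing, and one `κ_u = 0` implies all

`pairing`: write `l_P(z) = ∑ κ_u conj(P_u) z_u`, `P_u = P(zeta^u)`. Choose `z` with `F z ≠ 0`. Computing
`F (z + lamS P + lamS Q)` in the two orders,
`exp (l_P (z + lamS Q) + c_P) exp (l_Q z + c_Q) F z = exp (l_Q (z + lamS P) + c_Q) exp (l_P z + c_P) F z`,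
so `exp (l_P (lamS Q) - l_Q (lamS P)) = 1` (`Complex.exp_eq_one_iff`).

`all_zero`: put `k_u = κ_u ρ_u`. With `P = 1`, `Q = X^n`:
`e_n := (2 π i)⁻¹ ∑_{u ∈ s} k_u (zeta^(u n) - zeta^(-u n))` is an integer for every `n`. Orthogonality
(`∑_{n<q} zeta^(v n) = q` if `q ∣ v`, else `0`; `u - u'` and `u + u'` for `u, u' ∈ s`: `u + u' ≠ q`
because `q - u ∉ s` by `HS.half`): `q k_u = 2 π i ∑_{n<q} e_n zeta^(-u n)`. If `k_{u0} = 0` the integer
polynomial `D = ∑_{n<q} e_n X^n` vanishes at `zeta^(-u0)`, a primitive `q`-th root of unity (`HS.mem`), so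
it is divisible by the cyclotomic polynomial (`Polynomial.cyclotomic_eq_minpoly`,
`minpoly.isIntegrallyClosed_dvd`; or over `ℚ` with `minpoly.dvd`) and vanishes at all `zeta^(-u)`, `u`
prime to `q`. So all `k_u = 0` and `κ_u = 0`.
-/

set_option autoImplicit false

namespace LTG

open Finset Pool.Agent.Helper34.LT

theorem pairing (q : ℕ) (s : Finset ℕ) (ρ : ℕ → ℂ) (κ : s → ℂ) (c : Polynomial ℤ → ℂ)
    (F : (s → ℂ) → ℂ) (hne : ∃ z, F z ≠ 0) (h : QPS q s ρ κ c F) (P Q : Polynomial ℤ) :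
    ∃ n : ℤ, ∑ u, κ u * ρ u *
      ((starRingEnd ℂ) (pt q _ P u) * pt q _ Q u - (starRingEnd ℂ) (pt q _ Q u) * pt q _ P u) =
        n * (2 * Real.pi * Complex.I) :=
  Pool.Agent.Helper59.LT.pairing_gen q s ρ κ c F hne h P Q

theorem all_zero (q : ℕ) (s : Finset ℕ) (hs : HS q s) (ρ : ℕ → ℂ) (hρ : ∀ u ∈ s, ρ u ≠ 0)
    (κ : s → ℂ) (c : Polynomial ℤ → ℂ) (F : (s → ℂ) → ℂ) (hne : ∃ z, F z ≠ 0)
    (h : QPS q s ρ κ c F) (u0 : s) (h0 : κ u0 = 0) : κ = 0 :=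
  Pool.Agent.Helper59.LT.zero_gen q (by have := hs.three; omega) s
    (fun u hu => ⟨(hs.mem u hu).1, (hs.mem u hu).2.1⟩) (fun u hu => (hs.mem u hu).2.2)
    (fun u hu => (hs.half u (hs.mem u hu).1 (hs.mem u hu).2.1 (hs.mem u hu).2.2).1 hu)
    ρ hρ κ c F hne h u0 h0

end LTG
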