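import Mathlib

/-!
# LT, block G, piece G14: linear algebra

If the only `v` killed by all the linear forms `f i` is `0`, the `f i` span the dual space
(`Submodule.span` of the range: its dual annihilator is `0`; finite dimension), whose dimension is
`card ι = g`, so one can choose `g` of them which form a basis
(`exists_linearIndependent'`/`exists_linearIndependent`, cardinality by `finrank`).
-/

set_option autoImplicit false

namespace LTG

open Finset

theorem pick {ι B : Type} [Fintype ι] (g : ℕ) (hg : Fintype.card ι = g)
    (f : B → ((ι → ℂ) →L[ℂ] ℂ)) (h : ∀ v, (∀ i, f i v = 0) → v = 0) :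
    ∃ β : Fin g → B, LinearIndependent ℂ (fun i => f (β i)) := by
  obtain ⟨κ, a, _, hspan, hli⟩ := exists_linearIndependent' ℂ f
  haveI : Finite κ := hli.finite
  haveI := Fintype.ofFinite κ
  have hcard : g ≤ Fintype.card κ := by
    let T : (ι → ℂ) →ₗ[ℂ] (κ → ℂ) := LinearMap.pi fun k => (f (a k)).toLinearMap
    have hT : Function.Injective T := by
      rw [injective_iff_map_eq_zero]
      intro v hv
      apply h v
      intro i
      have h1 : f i ∈ Submodule.span ℂ (Set.range (f ∘ a)) := by
        rw [hspan]
        exact Submodule.subset_span ⟨i, rfl⟩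
      refine Submodule.span_induction (p := fun φ _ => φ v = 0) ?_ ?_ ?_ ?_ h1
      · rintro _ ⟨k, rfl⟩
        exact congrFun hv k
      · rfl
      · intro x y _ _ hx hy
        rw [ContinuousLinearMap.add_apply, hx, hy, add_zero]
      · intro c x _ hx
        rw [ContinuousLinearMap.smul_apply, hx, smul_zero]
    have h2 := LinearMap.finrank_le_finrank_of_injective hT
    rw [Module.finrank_fintype_fun_eq_card, Module.finrank_fintype_fun_eq_card, hg] at h2
    exact h2
  obtain ⟨e⟩ : Nonempty (Fin g ↪ κ) := by
    refine Function.Embedding.nonempty_of_card_le ?_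
    rwa [Fintype.card_fin]
  exact ⟨a ∘ e, hli.comp e e.injective⟩

end LTG
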