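import Pool.Agent.Helper4.LT.Ch
import Pool.Agent.Helper4.LT.Mv
import Pool.Agent.Helper4.LT.Gd
import Pool.Agent.Helper59.LT.Gx

/-!
# LT, block G, piece G8: the multipliers have the form `∑ κ_u conj (P (zeta^u)) z_u`

`per` gives `l_P`, `c_P` with `τ (z + lamS P) = exp (l_P z + c_P) τ z`. By `exp_unique` the linear form
`l_P` is determined by `lamS P`. Comparing `τ (z + lamS P + lamS Q)` in two ways,
`l_{P+Q} = l_P + l_Q` (and `l_P` is `ℤ`-linear in `P`). Let `m_u(P) = l_P (e_u)`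
(`e_u = Pi.single u 1`), so `l_P z = ∑ m_u(P) z_u`. Put `D z = (zeta^(u e) z_u)_u`; then
`D (lamS P) = lamS (X^e P)` and `sym` says `τ (D z) = zeta^w τ z`. So
`τ (D z + lamS (X^e P)) = τ (D (z + lamS P)) = zeta^w exp (l_P z + c_P) τ z`, and it is also
`exp (l_{X^e P} (D z) + c') zeta^w τ z`; hence `l_{X^e P} ∘ D = l_P`, i.e.
`m_u (X^e P) = zeta^(-u e) m_u(P)`. Iterate `t` times, `t e ≡ 1` mod `q` (`e` is prime to `q`), and
use `lamS_X_mod`: `m_u (X P) = zeta^(-u) m_u(P)`. So `m_u (X^n) = conj(zeta^(u n)) m_u(1)` and by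
additivity `m_u (P) = κ_u conj (P (zeta^u))`, `κ_u = m_u(1)` (induction on polynomials,
`Polynomial.induction_on'`).
-/

set_option autoImplicit false

namespace LTG

open Finset Pool.Agent.Helper34.LT

theorem exists_QP (q : ℕ) (s : Finset ℕ) (hs : HS q s) (ρ : ℕ → ℂ) (hρ : ∀ u ∈ s, ρ u ≠ 0)
    (e : ℕ) (he : Nat.Coprime e q) (τ : (s → ℂ) → ℂ) (hd : Differentiable ℂ τ)
    (hne : ∃ z, τ z ≠ 0)
    (sym : ∃ w : ℕ, ∀ z : s → ℂ, τ (fun u => zt q ^ ((u : ℕ) * e) * z u) = zt q ^ w * τ z)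
    (per : ∀ P : Polynomial ℤ, ∃ (l : (s → ℂ) →ₗ[ℂ] ℂ) (c : ℂ), ∀ z,
      τ (z + lamS q s ρ P) = Complex.exp (l z + c) * τ z) :
    ∃ (κ : s → ℂ) (c : Polynomial ℤ → ℂ), QPS q s ρ κ c τ := by
  obtain ⟨w, hw⟩ := sym
  exact Pool.Agent.Helper59.LT.QP_gen q (by have := hs.three; omega) s ρ e he τ hd hne w hw per

end LTG
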