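import Pool.Agent.Helper4.LT.Un

/-!
# LT, block G, piece G7: coefficients with respect to some of the variables

Let `T (z, w) = ∑ a_M (z,w)^M` be an everywhere convergent power series in the variables
`z ∈ ℂ^ι`, `w ∈ ℂ^κ`. `sl a β` is the coefficient of `w^β`, a power series in `z`.

`sl_hasSum'`: `(m, β) ↦ Sum.elim m β` is an equivalence `(ι → ℕ) × (κ → ℕ) ≃ (ι ⊕ κ → ℕ)`
(`Equiv.sumArrowEquivProdArrow`); take the summable family at the point `(z, 1)` and restrict it to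
the fibre over `β` (`Summable.prod_factor`, or `Summable.comp_injective`).

`sl_hasSum`: `HasSum.prod_fiberwise` (in the order `β` outside, `m` inside).

`sl_diff`: `diff_of_hasSum`.

`sl_deriv`: for `s ∈ ℂ` put `g_β(s) = sl a β (z + s v) * w^β` and `G(s) = T (z + s v, w) = ∑_β g_β(s)`.
For `|s| < 1` we have `‖g_β(s)‖ ≤ ∑_m ‖a (m,β)‖ R^|m| |w|^β` with `R ≥ ‖z‖ + ‖v‖`, `R ≥ 0`, which is
summable in `β` (absolute convergence at `(R,…,R,|w|)`). So termwise differentiation is allowed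
(`hasSum_deriv_of_summable_norm`), at `s = 0`.
-/

set_option autoImplicit false

namespace LTG

open Finset

noncomputable def sl {ι κ : Type} [Fintype ι] (a : (ι ⊕ κ → ℕ) → ℂ) (β : κ → ℕ) (z : ι → ℂ) : ℂ :=
  ∑' m : ι → ℕ, a (Sum.elim m β) * ∏ u, z u ^ m u

private theorem sl_key {ι κ : Type} [Fintype ι] [Fintype κ] (a : (ι ⊕ κ → ℕ) → ℂ)
    (T : (ι ⊕ κ → ℂ) → ℂ)
    (h : ∀ x : ι ⊕ κ → ℂ, HasSum (fun m : ι ⊕ κ → ℕ => a m * ∏ u, x u ^ m u) (T x))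
    (z : ι → ℂ) (w : κ → ℂ) :
    HasSum (fun p : (κ → ℕ) × (ι → ℕ) =>
      a (Sum.elim p.2 p.1) * (∏ u, z u ^ p.2 u) * ∏ u, w u ^ p.1 u) (T (Sum.elim z w)) := by
  have h1 := (((Equiv.prodComm (κ → ℕ) (ι → ℕ)).trans
    (Equiv.sumArrowEquivProdArrow ι κ ℕ).symm).hasSum_iff).2 (h (Sum.elim z w))
  have h2 : (fun p : (κ → ℕ) × (ι → ℕ) =>
      a (Sum.elim p.2 p.1) * (∏ u, z u ^ p.2 u) * ∏ u, w u ^ p.1 u) =
      (fun m : ι ⊕ κ → ℕ => a m * ∏ u, (Sum.elim z w) u ^ m u) ∘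
        ((Equiv.prodComm (κ → ℕ) (ι → ℕ)).trans
          (Equiv.sumArrowEquivProdArrow ι κ ℕ).symm) := by
    funext p
    have e : ((Equiv.prodComm (κ → ℕ) (ι → ℕ)).trans
        (Equiv.sumArrowEquivProdArrow ι κ ℕ).symm) p = Sum.elim p.2 p.1 := rfl
    rw [Function.comp_apply, e, Fintype.prod_sum_type, mul_assoc]
    simp only [Sum.elim_inl, Sum.elim_inr]
  rw [h2]
  exact h1

theorem sl_hasSum' {ι κ : Type} [Fintype ι] [Fintype κ] (a : (ι ⊕ κ → ℕ) → ℂ)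
    (T : (ι ⊕ κ → ℂ) → ℂ)
    (h : ∀ x : ι ⊕ κ → ℂ, HasSum (fun m : ι ⊕ κ → ℕ => a m * ∏ u, x u ^ m u) (T x))
    (β : κ → ℕ) (z : ι → ℂ) :
    HasSum (fun m : ι → ℕ => a (Sum.elim m β) * ∏ u, z u ^ m u) (sl a β z) := by
  have h1 := (sl_key a T h z 1).summable.prod_factor β
  have h2 : Summable fun m : ι → ℕ => a (Sum.elim m β) * ∏ u, z u ^ m u := by
    refine h1.congr fun m => ?_
    simp
  exact h2.hasSum

theorem sl_hasSum {ι κ : Type} [Fintype ι] [Fintype κ] (a : (ι ⊕ κ → ℕ) → ℂ)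
    (T : (ι ⊕ κ → ℂ) → ℂ)
    (h : ∀ x : ι ⊕ κ → ℂ, HasSum (fun m : ι ⊕ κ → ℕ => a m * ∏ u, x u ^ m u) (T x))
    (z : ι → ℂ) (w : κ → ℂ) :
    HasSum (fun β : κ → ℕ => sl a β z * ∏ u, w u ^ β u) (T (Sum.elim z w)) := by
  exact (sl_key a T h z w).prod_fiberwise fun β => (sl_hasSum' a T h β z).mul_right _

theorem sl_diff {ι κ : Type} [Fintype ι] [Fintype κ] (a : (ι ⊕ κ → ℕ) → ℂ)
    (T : (ι ⊕ κ → ℂ) → ℂ)
    (h : ∀ x : ι ⊕ κ → ℂ, HasSum (fun m : ι ⊕ κ → ℕ => a m * ∏ u, x u ^ m u) (T x))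
    (β : κ → ℕ) : Differentiable ℂ (sl a β) := by
  exact diff_of_hasSum (fun m => a (Sum.elim m β)) (sl a β) fun z => sl_hasSum' a T h β z

theorem sl_deriv {ι κ : Type} [Fintype ι] [Fintype κ] (a : (ι ⊕ κ → ℕ) → ℂ)
    (T : (ι ⊕ κ → ℂ) → ℂ)
    (h : ∀ x : ι ⊕ κ → ℂ, HasSum (fun m : ι ⊕ κ → ℕ => a m * ∏ u, x u ^ m u) (T x))
    (z v : ι → ℂ) (w : κ → ℂ) :
    HasSum (fun β : κ → ℕ => fderiv ℂ (sl a β) z v * ∏ u, w u ^ β u)
      (fderiv ℂ (fun y : ι → ℂ => T (Sum.elim y w)) z v) := by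
  have hU : IsOpen (Metric.ball (0 : ℂ) 1) := Metric.isOpen_ball
  have h0 : (0 : ℂ) ∈ Metric.ball (0 : ℂ) 1 := Metric.mem_ball_self one_pos
  have hline : ∀ s : ℂ, HasDerivAt (fun s : ℂ => z + s • v) v s := by
    intro s
    have h1 := ((hasDerivAt_id s).smul_const v).const_add z
    rw [one_smul] at h1
    exact h1
  have hz0 : z + (0 : ℂ) • v = z := by rw [zero_smul, add_zero]
  obtain ⟨R, hR⟩ : ∃ R : ℝ, R = ‖z‖ + ‖v‖ := ⟨_, rfl⟩
  have hR0 : 0 ≤ R := by rw [hR]; positivity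
  -- the majorant
  have hmaj : Summable fun p : (κ → ℕ) × (ι → ℕ) =>
      ‖a (Sum.elim p.2 p.1)‖ * R ^ (∑ u, p.2 u) * ∏ u, ‖w u‖ ^ p.1 u := by
    have h1 := (sl_key a T h (fun _ => (R : ℂ)) (fun k => (‖w k‖ : ℂ))).summable.norm
    refine h1.congr fun p => ?_
    rw [norm_mul, norm_mul, norm_prod, norm_prod]
    congr 1
    · congr 1
      rw [← prod_pow_eq_pow_sum]
      refine prod_congr rfl fun u _ => ?_
      rw [norm_pow, Complex.norm_real, Real.norm_of_nonneg hR0]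
    · refine prod_congr rfl fun u _ => ?_
      rw [norm_pow, Complex.norm_real, norm_norm]
  have hdiff : ∀ β : κ → ℕ, Differentiable ℂ fun s : ℂ => sl a β (z + s • v) * ∏ u, w u ^ β u := by
    intro β s
    exact ((sl_diff a T h β _).hasFDerivAt.comp_hasDerivAt s (hline s)).differentiableAt.mul_const _
  have hle : ∀ (β : κ → ℕ) (s : ℂ), s ∈ Metric.ball (0 : ℂ) 1 →
      ‖sl a β (z + s • v) * ∏ u, w u ^ β u‖ ≤
        ∑' m : ι → ℕ, ‖a (Sum.elim m β)‖ * R ^ (∑ u, m u) * ∏ u, ‖w u‖ ^ β u := by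
    intro β s hs
    have hs1 : ‖s‖ ≤ 1 := (mem_ball_zero_iff.1 hs).le
    have h1 := (sl_hasSum' a T h β (z + s • v)).mul_right (∏ u, w u ^ β u)
    rw [← h1.tsum_eq]
    refine tsum_of_norm_bounded (hmaj.prod_factor β).hasSum fun m => ?_
    rw [norm_mul, norm_mul, norm_prod, norm_prod]
    have h2 : ∏ u, ‖(z + s • v) u ^ m u‖ ≤ R ^ (∑ u, m u) := by
      rw [← prod_pow_eq_pow_sum]
      refine prod_le_prod (fun u _ => norm_nonneg _) fun u _ => ?_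
      rw [norm_pow]
      refine pow_le_pow_left₀ (norm_nonneg _) ?_ _
      calc ‖(z + s • v) u‖ ≤ ‖z + s • v‖ := norm_le_pi_norm _ u
        _ ≤ ‖z‖ + ‖s • v‖ := norm_add_le _ _
        _ = ‖z‖ + ‖s‖ * ‖v‖ := by rw [norm_smul]
        _ ≤ ‖z‖ + 1 * ‖v‖ := by gcongr
        _ = R := by rw [one_mul, hR]
    have h3 : ∏ u, ‖w u ^ β u‖ = ∏ u, ‖w u‖ ^ β u := prod_congr rfl fun u _ => norm_pow _ _
    rw [h3]
    exact mul_le_mul_of_nonneg_right (mul_le_mul_of_nonneg_left h2 (norm_nonneg _))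
      (prod_nonneg fun u _ => pow_nonneg (norm_nonneg _) _)
  have hmain := Complex.hasSum_deriv_of_summable_norm hmaj.prod
    (fun β => (hdiff β).differentiableOn) hU hle h0
  have hl : ∀ β : κ → ℕ, deriv (fun s : ℂ => sl a β (z + s • v) * ∏ u, w u ^ β u) 0 =
      fderiv ℂ (sl a β) z v * ∏ u, w u ^ β u := by
    intro β
    have h1 := (sl_diff a T h β (z + (0 : ℂ) • v)).hasFDerivAt.comp_hasDerivAt (0 : ℂ) (hline 0)
    have h2 := (h1.mul_const (∏ u, w u ^ β u)).deriv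
    rw [hz0] at h2
    exact h2
  have hr : deriv (fun s : ℂ => ∑' β : κ → ℕ, sl a β (z + s • v) * ∏ u, w u ^ β u) 0 =
      fderiv ℂ (fun y : ι → ℂ => T (Sum.elim y w)) z v := by
    have e1 : (fun s : ℂ => ∑' β : κ → ℕ, sl a β (z + s • v) * ∏ u, w u ^ β u) =
        fun s : ℂ => T (Sum.elim (z + s • v) w) :=
      funext fun s => (sl_hasSum a T h (z + s • v) w).tsum_eq
    rw [e1]
    have hD : Differentiable ℂ fun y : ι → ℂ => T (Sum.elim y w) := by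
      refine (diff_of_hasSum a T h).comp ?_
      rw [differentiable_pi]
      rintro (u | u)
      · exact differentiable_apply u
      · exact differentiable_const _
    have h1 := (hD (z + (0 : ℂ) • v)).hasFDerivAt.comp_hasDerivAt (0 : ℂ) (hline 0)
    have h2 := h1.deriv
    rw [hz0] at h2
    exact h2
  rw [hr] at hmain
  have he : (fun β : κ → ℕ => fderiv ℂ (sl a β) z v * ∏ u, w u ^ β u) =
      fun β : κ → ℕ => deriv (fun s : ℂ => sl a β (z + s • v) * ∏ u, w u ^ β u) 0 :=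
    funext fun β => (hl β).symm
  rw [he]
  exact hmain

end LTG
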