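import Pool.Agent.Helper4.LT.Tt
import Pool.Agent.Helper4.LT.Sl
import Pool.Agent.Helper4.LT.Qp
import Pool.Agent.Helper4.LT.Pa
import Pool.Agent.Helper4.LT.Li
import Pool.Agent.Helper4.LT.Gr
import Pool.Agent.Helper4.LT.Pk
import Pool.Agent.Helper4.LT.Mo

/-!
# LT, block G, assembly
-/

set_option autoImplicit false

namespace LTG

open Finset Pool.Agent.Helper34.LT

/-- the scale factor which makes the coefficient functions of type `RT` -/
private noncomputable def sc {K : Type} [Fintype K] (D : ℕ) (β : K → ℕ) : ℂ :=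
  (D : ℂ) ^ (∑ u, β u) * ∏ u, ((β u).factorial : ℂ)

private lemma sc_ne {K : Type} [Fintype K] (D : ℕ) (hD : 1 ≤ D) (β : K → ℕ) : sc D β ≠ 0 := by
  unfold sc
  refine mul_ne_zero (pow_ne_zero _ (by exact_mod_cast (by omega : D ≠ 0))) ?_
  exact Finset.prod_ne_zero_iff.mpr fun u _ => by exact_mod_cast (Nat.factorial_ne_zero _)

/-- the coefficients of `T` as complex numbers -/
private noncomputable def cf {K : Type} [Fintype K] (D k : ℕ) (A : (K → ℕ) → ℤ) (m : K → ℕ) : ℂ :=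
  (A m : ℂ) / ((D : ℂ) ^ (∑ u, m u + k) * ∏ u, ((m u).factorial : ℂ))

private lemma rt_slice {I K : Type} [Fintype I] [Fintype K] (D : ℕ) (hD : 1 ≤ D)
    (T : (I ⊕ K → ℂ) → ℂ) (A : (I ⊕ K → ℕ) → ℤ)
    (h : ∀ x, HasSum (fun m : I ⊕ K → ℕ => cf D 3 A m * ∏ u, x u ^ m u) (T x)) (β : K → ℕ) :
    RT D 3 (fun z => sc D β * sl (cf D 3 A) β z) := by
  refine ⟨fun m => A (Sum.elim m β), fun z => ?_⟩
  have h1 := (sl_hasSum' (cf D 3 A) T h β z).mul_left (sc D β)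
  refine h1.congr_fun ?_ |> fun h2 => h2
  intro m
  have hD' : (D : ℂ) ≠ 0 := by exact_mod_cast (by omega : D ≠ 0)
  have hf : ∏ u, ((β u).factorial : ℂ) ≠ 0 :=
    Finset.prod_ne_zero_iff.mpr fun u _ => by exact_mod_cast (Nat.factorial_ne_zero _)
  have hf' : ∏ u, ((m u).factorial : ℂ) ≠ 0 :=
    Finset.prod_ne_zero_iff.mpr fun u _ => by exact_mod_cast (Nat.factorial_ne_zero _)
  unfold sc cf
  simp only [Fintype.sum_sum_type, Fintype.prod_sum_type, Sum.elim_inl, Sum.elim_inr]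
  field_simp
  ring

/-- the result for an abstract half system -/
theorem G_gen (q : ℕ) (s : Finset ℕ) (hs : HS q s) (g : ℕ) (hg : s.card = g) (ρ : ℕ → ℂ)
    (hρ : ∀ u ∈ s, ρ u ≠ 0) (e : ℕ) (he : Nat.Coprime e q) (τ : (s → ℂ) → ℂ)
    (hd : Differentiable ℂ τ) (h0 : τ 0 = 0) (hne : ∃ z, τ z ≠ 0)
    (hrt : ∃ D : ℕ, 1 ≤ D ∧ RT D 1 τ)
    (sym : ∃ w : ℕ, ∀ z : s → ℂ, τ (fun u => zt q ^ ((u : ℕ) * e) * z u) = zt q ^ w * τ z)
    (per : ∀ P : Polynomial ℤ, ∃ (l : (s → ℂ) →ₗ[ℂ] ℂ) (c : ℂ), ∀ z,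
      τ (z + lamS q s ρ P) = Complex.exp (l z + c) * τ z) :
    ∃ (κ : s → ℂ) (c : Polynomial ℤ → ℂ) (f0 : (s → ℂ) → ℂ) (f : Fin g → (s → ℂ) → ℂ),
      (∀ u, κ u ≠ 0) ∧ Differentiable ℂ f0 ∧ (∀ i, Differentiable ℂ (f i)) ∧
      QPS q s ρ κ c f0 ∧ (∀ i, QPS q s ρ κ c (f i)) ∧
      (∃ D : ℕ, 1 ≤ D ∧ RT D 1 f0 ∧ ∀ i, RT D 1 (f i)) ∧
      (∃ C : ℝ, ∀ z, ‖f0 z‖ ≤ Real.exp (C * (1 + ‖z‖ ^ 2)) ∧
        ∀ i, ‖f i z‖ ≤ Real.exp (C * (1 + ‖z‖ ^ 2))) ∧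
      (∀ p, ∃ F : (s → ℂ) → ℂ, Differentiable ℂ F ∧ QPS q s ρ κ c F ∧ F p ≠ 0) ∧
      (∀ L : ℕ, LinearIndependent ℂ (fun e : Fin g → Fin (L + 1) => mon g L f0 f e)) := by
  classical
  obtain ⟨κ, c, hQ⟩ := exists_QP q s hs ρ hρ e he τ hd hne sym per
  have hκ : ∀ u, κ u ≠ 0 := by
    intro u hu
    have h1 := all_zero q s hs ρ hρ κ c τ hne hQ u hu
    obtain ⟨z, hz⟩ := hne
    refine hz (liouville q s hs ρ hρ c τ hd h0 ?_ z)
    intro P z
    rw [hQ P z]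
    simp [h1]
  obtain ⟨D, hD, hrt⟩ := hrt
  obtain ⟨A, hA⟩ := TT_RT D hD τ hrt
  have hA' : ∀ x, HasSum (fun m : s ⊕ (s ⊕ s) → ℕ =>
      cf D 3 A m * ∏ u, x u ^ m u) (TT τ x) := hA
  obtain ⟨F, hF⟩ : ∃ F : (s ⊕ s → ℕ) → (s → ℂ) → ℂ,
      F = fun β z => sc D β * sl (cf D 3 A) β z := ⟨_, rfl⟩
  have hFd : ∀ β, Differentiable ℂ (F β) := by
    intro β
    rw [hF]
    exact (sl_diff (cf D 3 A) (TT τ) hA' β).const_mul _
  have hFrt : ∀ β, RT D 3 (F β) := by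
    intro β
    rw [hF]
    exact rt_slice D hD (TT τ) A hA' β
  have hFQ : ∀ β, QPS q s ρ (fun u => 3 * κ u) (fun P => 3 * c P) (F β) := by
    intro β P z
    have h1 : ∀ w : s ⊕ s → ℂ,
        HasSum (fun β : s ⊕ s → ℕ =>
        (sl (cf D 3 A) β (z + lamS q s ρ P) - Complex.exp (∑ u, 3 * κ u *
          (starRingEnd ℂ) (pt q _ P u) * z u + 3 * c P) * sl (cf D 3 A) β z) *
          ∏ u, w u ^ β u) 0 := by
      intro w
      have h2 := sl_hasSum (cf D 3 A) (TT τ) hA' (z + lamS q s ρ P) w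
      have h3 := (sl_hasSum (cf D 3 A) (TT τ) hA' z w).mul_left
        (Complex.exp (∑ u, 3 * κ u * (starRingEnd ℂ) (pt q _ P u) * z u + 3 * c P))
      have h4 := TT_QP q s ρ κ c τ hQ w P z
      simp only at h4
      rw [h4] at h2
      have h5 := h2.sub h3
      rw [sub_self] at h5
      refine h5.congr_fun ?_
      intro β
      ring
    have h6 := coeff_zero _ h1 β
    rw [hF]
    simp only
    rw [sub_eq_zero] at h6
    rw [h6]
    ring
  obtain ⟨β0, hβ0⟩ : ∃ β0, F β0 0 ≠ 0 := by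
    by_contra hcon
    push Not at hcon
    obtain ⟨w, hw⟩ := TT_ne τ hd hne 0
    refine hw ?_
    have h1 := sl_hasSum (cf D 3 A) (TT τ) hA' 0 w
    refine h1.unique ?_
    have h2 : ∀ β, sl (cf D 3 A) β 0 = 0 := by
      intro β
      have h3 := hcon β
      rw [hF] at h3
      exact (mul_eq_zero.mp h3).resolve_left (sc_ne D hD β)
    simp only [h2, zero_mul]
    exact hasSum_zero
  have hspan : ∀ v, (∀ β, (fderiv ℂ (F β) 0 - (F β 0 / F β0 0) • fderiv ℂ (F β0) 0) v = 0) →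
      v = 0 := by
    intro v hv
    refine TT_span q s hs ρ κ hκ c τ hd hne hQ v
      (fderiv ℂ (F β0) 0 v / F β0 0) ?_
    intro w
    have h1 := sl_deriv (cf D 3 A) (TT τ) hA' 0 v w
    have h2 := (sl_hasSum (cf D 3 A) (TT τ) hA' 0 w).mul_left (fderiv ℂ (F β0) 0 v / F β0 0)
    refine h1.unique (h2.congr_fun ?_)
    intro β
    have h3 := hv β
    have h4 : fderiv ℂ (F β) 0 = sc D β • fderiv ℂ (sl (cf D 3 A) β) 0 := by
      rw [hF]
      exact fderiv_const_mul ((sl_diff (cf D 3 A) (TT τ) hA' β) 0) _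
    have h5 : F β 0 = sc D β * sl (cf D 3 A) β 0 := by rw [hF]
    rw [sub_apply, smul_apply, h4,
      smul_apply, h5] at h3
    have h6 := sc_ne D hD β
    simp only [smul_eq_mul] at h3
    have h7 : fderiv ℂ (sl (cf D 3 A) β) 0 v =
        fderiv ℂ (F β0) 0 v / F β0 0 * sl (cf D 3 A) β 0 := by
      apply mul_left_cancel₀ h6
      linear_combination h3
    rw [h7]
    ring
  have hcard : Fintype.card s = g := by
    rw [Fintype.card_coe, hg]
  obtain ⟨β, hβ⟩ := pick g hcard _ hspan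
  refine ⟨fun u => 3 * κ u, fun P => 3 * c P, F β0, fun i => F (β i), ?_⟩
  refine ⟨fun u => mul_ne_zero (by norm_num) (hκ u), hFd β0, fun i => hFd _, hFQ _,
    fun i => hFQ _, ⟨D ^ 3, Nat.one_le_pow _ _ hD, RT_pow D 3 hD (by norm_num) _ (hFrt _),
      fun i => RT_pow D 3 hD (by norm_num) _ (hFrt _)⟩, ?_, ?_,
    fun L => mon_indep g hcard (F β0) (fun i => F (β i))
      (contDiff_one (hFd _)) (fun i => contDiff_one (hFd _)) 0 hβ0 hβ L⟩
  · have h1 : ∀ β, ∃ C : ℝ, ∀ z, ‖F β z‖ ≤ Real.exp (C * (1 + ‖z‖ ^ 2)) := fun β =>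
      growth q s hs ρ hρ _ _ (F β) (hFd β).continuous (hFQ β)
    choose C hC using h1
    refine ⟨C β0 ⊔ ∑ i, |C (β i)|, fun z => ⟨?_, fun i => ?_⟩⟩
    · refine (hC β0 z).trans (Real.exp_le_exp.mpr ?_)
      exact mul_le_mul_of_nonneg_right le_sup_left (by positivity)
    · refine (hC (β i) z).trans (Real.exp_le_exp.mpr ?_)
      refine mul_le_mul_of_nonneg_right ?_ (by positivity)
      refine le_trans ?_ le_sup_right
      exact (le_abs_self _).trans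
        (Finset.single_le_sum (f := fun i => |C (β i)|) (fun _ _ => abs_nonneg _) (mem_univ i))
  · intro p
    obtain ⟨w, hw⟩ := TT_ne τ hd hne p
    refine ⟨fun z => TT τ (Sum.elim z w), ?_, TT_QP q s ρ κ c τ hQ w, hw⟩
    refine (TT_diff τ hd).comp ?_
    rw [differentiable_pi]
    rintro (u | u)
    · simp only [Sum.elim_inl]
      exact differentiable_apply u
    · simp only [Sum.elim_inr]
      exact differentiable_const _

/-- block G for prime levels -/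
theorem G_main (q a b : ℕ) (hq : q.Prime) (hq5 : 5 ≤ q) (ha : ¬ q ∣ a) (hb : ¬ q ∣ b)
    (hab : ¬ q ∣ a + b) (τ : (Phi q a b → ℂ) → ℂ) (h : IsTau q a b τ) :
    ∃ (κ : Phi q a b → ℂ) (c : Polynomial ℤ → ℂ) (f0 : (Phi q a b → ℂ) → ℂ)
      (f : Fin ((q - 1) / 2) → (Phi q a b → ℂ) → ℂ), IsSys q a b κ c f0 f := by
  have hq3 : 3 ≤ q := by omega
  have he : Nat.Coprime (a + b) q := by
    rw [Nat.coprime_comm]
    exact (Nat.Prime.coprime_iff_not_dvd hq).mpr hab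
  obtain ⟨κ, c, f0, f, h1, h2, h3, h4, h5, h6, h7, h8, h9⟩ :=
    G_gen q (Phi q a b) (hs_Phi q a b hq hq3 ha hb hab) ((q - 1) / 2)
      (card_Phi q a b hq hq3 ha hb hab) (rho q a b)
      (fun u hu => rho_ne q a b u hq ha hb hab hu) (a + b) he τ h.diff h.zero h.ne h.rt h.sym h.per
  exact ⟨κ, c, f0, f, h1, h2, h3, h4, h5, h6, h7, h8, h9⟩

end LTG
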