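import Pool.Agent.Helper4.LT.Ch
import Pool.Agent.Helper4.LT.Mv

/-!
# LT, block G, piece G12: the function is not degenerate

Suppose `D_v F = (A z + b₀) F`. Differentiate `F (z + lamS P) = exp (l_P z + c_P) F z` in the direction
`v` (`l_P z = ∑ κ_u conj(P_u) z_u`): `(A (z + lamS P) + b₀) F (z + lamS P) =
exp (l_P z + c_P) (l_P v F z + (A z + b₀) F z)`. At a point `z` with `F z ≠ 0`: `A (lamS P) = l_P v`,
i.e. with `P = X^n`: `∑_u (A e_u) ρ_u zeta^(u n) - ∑_u κ_u v_u conj(zeta^(u n)) = 0` for all `n`. By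
`chars_phi`, `κ_u v_u = 0`, so `v = 0`.
-/

set_option autoImplicit false

namespace LTG

open Finset Pool.Agent.Helper34.LT

private theorem g12_key {ι : Type} [Fintype ι] {F : (ι → ℂ) → ℂ} (hF : Differentiable ℂ F)
    (w v : ι → ℂ) (k : ι → ℂ) (c : ℂ) (A : (ι → ℂ) →ₗ[ℂ] ℂ) (b₀ : ℂ)
    (hv : ∀ z, fderiv ℂ F z v = (A z + b₀) * F z)
    (h : ∀ z, F (z + w) = Complex.exp (∑ u, k u * z u + c) * F z) {z : ι → ℂ} (hz : F z ≠ 0) :
    A w = ∑ u, k u * v u := by
  obtain ⟨L, hL⟩ : ∃ L : (ι → ℂ) →L[ℂ] ℂ, ∀ x, L x = ∑ u, k u * x u := by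
    refine ⟨∑ u, k u • ContinuousLinearMap.proj (R := ℂ) (φ := fun _ : ι => ℂ) u, fun x => ?_⟩
    simp only [_root_.sum_apply, _root_.smul_apply,
      ContinuousLinearMap.proj_apply, smul_eq_mul]
  have h1 : (fun x => F (x + w)) = fun x => Complex.exp (L x + c) * F x := by
    funext x
    rw [h x, hL]
  have h2 : HasFDerivAt (fun x => Complex.exp (L x + c) * F x)
      (Complex.exp (L z + c) • fderiv ℂ F z + F z • (Complex.exp (L z + c) • L)) z :=
    ((L.hasFDerivAt.add_const c).cexp).mul (hF z).hasFDerivAt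
  have h3 : fderiv ℂ F (z + w) v =
      (Complex.exp (L z + c) • fderiv ℂ F z + F z • (Complex.exp (L z + c) • L)) v := by
    rw [← fderiv_comp_add_right (𝕜 := ℂ) (f := F) w, h1, h2.fderiv]
  rw [hv, h z, ← hL z, map_add] at h3
  have h4 : (A z + A w + b₀) * (Complex.exp (L z + c) * F z) =
      Complex.exp (L z + c) * ((A z + b₀) * F z) + F z * (Complex.exp (L z + c) * L v) := by
    rw [h3, _root_.add_apply, _root_.smul_apply,
      _root_.smul_apply, _root_.smul_apply, hv z]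
    simp only [smul_eq_mul]
  have h5 : Complex.exp (L z + c) * F z ≠ 0 := mul_ne_zero (Complex.exp_ne_zero _) hz
  have h6 : (A w - L v) * (Complex.exp (L z + c) * F z) = 0 := by
    linear_combination h4
  have h7 := (mul_eq_zero.1 h6).resolve_right h5
  rw [← hL v]
  exact sub_eq_zero.1 h7

theorem aff_zero (q : ℕ) (s : Finset ℕ) (hs : HS q s) (ρ : ℕ → ℂ)
    (κ : s → ℂ) (hκ : ∀ u, κ u ≠ 0) (c : Polynomial ℤ → ℂ) (F : (s → ℂ) → ℂ)
    (hF : Differentiable ℂ F) (hne : ∃ z, F z ≠ 0) (h : QPS q s ρ κ c F)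
    (v : s → ℂ) (A : (s → ℂ) →ₗ[ℂ] ℂ) (b₀ : ℂ)
    (hv : ∀ z, fderiv ℂ F z v = (A z + b₀) * F z) : v = 0 := by
  classical
  obtain ⟨z, hz⟩ := hne
  have h1 : ∀ n : ℕ, ∑ u : s,
      ((A fun j => if u = j then 1 else 0) * ρ u * zt q ^ ((u : ℕ) * n) +
        -(κ u * v u) * (starRingEnd ℂ) (zt q ^ ((u : ℕ) * n))) = 0 := by
    intro n
    have h2 := g12_key hF (lamS q s ρ (Polynomial.X ^ n)) v
      (fun u => κ u * (starRingEnd ℂ) (pt q _ (Polynomial.X ^ n) u)) (c (Polynomial.X ^ n)) A b₀ hv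
      (fun z => h (Polynomial.X ^ n) z) hz
    rw [LinearMap.pi_apply_eq_sum_univ A] at h2
    have e1 : ∑ u : s, (A fun j => if u = j then 1 else 0) * ρ u *
        zt q ^ ((u : ℕ) * n) =
        ∑ i, lamS q s ρ (Polynomial.X ^ n) i • A fun j => if i = j then 1 else 0 := by
      refine Finset.sum_congr rfl fun u _ => ?_
      rw [smul_eq_mul]
      simp only [lamS, pt_X_pow]
      ring
    have e2 : ∑ u : s, -(κ u * v u) * (starRingEnd ℂ) (zt q ^ ((u : ℕ) * n)) =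
        -∑ u, κ u * (starRingEnd ℂ) (pt q (s) (Polynomial.X ^ n) u) * v u := by
      rw [← Finset.sum_neg_distrib]
      refine Finset.sum_congr rfl fun u _ => ?_
      rw [pt_X_pow]
      ring
    rw [Finset.sum_add_distrib, e1, e2, h2, add_neg_cancel]
  have h2 := (chars_phi q s hs
    (fun u => (A fun j => if u = j then 1 else 0) * ρ u) (fun u => -(κ u * v u)) h1).2
  funext u
  have h4 : -(κ u * v u) = 0 := congrFun h2 u
  rw [neg_eq_zero] at h4
  exact (mul_eq_zero.1 h4).resolve_left (hκ u)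

end LTG
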