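import Pool.Agent.Helper4.LT.Dd

/-!
# LT, block G, piece G13: the functional equation forces an affine logarithmic derivative

Let `D p = fderiv ℂ F p v`. Hypothesis: for all `x, y`, with `t = -x - y`,
`D x F y F t + F x D y F t + F x F y D t = c F x F y F t`.
Choose `x₀` with `F x₀ ≠ 0` and then (`exists_ne₂` for `y ↦ F y` and `y ↦ F (-x₀ - y)`) `y₀` with
`F y₀ ≠ 0`, `F (-x₀ - y₀) ≠ 0`. On small balls around `x₀`, `y₀`, `t₀ = -x₀ - y₀` the function `F` has no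
zeros and `ζ = D / F` is differentiable (`diff_dir`) with `ζ x + ζ y + ζ (-x-y) = c`. Take the derivative
in `x` and in `y`: `fderiv ζ x = fderiv ζ (-x-y) = fderiv ζ y` for `x` near `x₀`, `y` near `y₀`. So
`fderiv ζ x = fderiv ζ y₀ =: A` for all `x` near `x₀`, and `ζ x = A x + b` on a ball around `x₀`
(constant derivative on a convex open set). So `D x - (A x + b) F x` is an entire function
(`diff_dir`) which is zero near `x₀`, hence zero (`eq_zero_of_eventually`).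
-/

set_option autoImplicit false

namespace LTG

open Finset

theorem affine_of_eq {ι : Type} [Fintype ι] (F : (ι → ℂ) → ℂ) (hF : Differentiable ℂ F)
    (hne : ∃ z, F z ≠ 0) (v : ι → ℂ) (c : ℂ)
    (h : ∀ x y : ι → ℂ, fderiv ℂ F x v * F y * F (-x - y) + F x * fderiv ℂ F y v * F (-x - y) +
      F x * F y * fderiv ℂ F (-x - y) v = c * (F x * F y * F (-x - y))) :
    ∃ (A : (ι → ℂ) →ₗ[ℂ] ℂ) (b : ℂ), ∀ z, fderiv ℂ F z v = (A z + b) * F z := by
  have hD : Differentiable ℂ (fun z => fderiv ℂ F z v) := diff_dir hF v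
  have hFc : Continuous F := hF.continuous
  obtain ⟨x₀, hx₀⟩ := hne
  have hG : Differentiable ℂ (fun y : ι → ℂ => F (-x₀ - y)) :=
    hF.comp ((differentiable_const _).sub differentiable_id)
  obtain ⟨y₀, hy₀, ht₀⟩ := exists_ne₂ hF hG ⟨x₀, hx₀⟩ ⟨-x₀ - x₀, by
    rw [sub_sub_cancel]
    exact hx₀⟩
  obtain ⟨ζ, hζ⟩ : ∃ ζ : (ι → ℂ) → ℂ, ζ = fun z => fderiv ℂ F z v / F z := ⟨_, rfl⟩
  have hdiff : ∀ z, F z ≠ 0 → DifferentiableAt ℂ ζ z := by
    intro z hz
    rw [hζ]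
    simp only [div_eq_mul_inv]
    exact (hD z).fun_mul ((hF z).fun_inv hz)
  have hsum : ∀ x y, F x ≠ 0 → F y ≠ 0 → F (-x - y) ≠ 0 → ζ x + ζ y + ζ (-x - y) = c := by
    intro x y h1 h2 h3
    have h4 := h x y
    rw [hζ]
    show fderiv ℂ F x v / F x + fderiv ℂ F y v / F y +
      fderiv ℂ F (-x - y) v / F (-x - y) = c
    have h5 : fderiv ℂ F x v / F x + fderiv ℂ F y v / F y +
        fderiv ℂ F (-x - y) v / F (-x - y) =
        (fderiv ℂ F x v * F y * F (-x - y) + F x * fderiv ℂ F y v * F (-x - y) +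
          F x * F y * fderiv ℂ F (-x - y) v) / (F x * F y * F (-x - y)) := by
      field_simp
    rw [h5, h4, mul_div_cancel_right₀ _ (mul_ne_zero (mul_ne_zero h1 h2) h3)]
  have hgen : ∀ x y, F x ≠ 0 → F y ≠ 0 → F (-x - y) ≠ 0 →
      fderiv ℂ ζ x = fderiv ℂ ζ (-x - y) := by
    intro x y h1 h2 h3
    have hin : HasFDerivAt (fun z : ι → ℂ => -z - y) (-ContinuousLinearMap.id ℂ (ι → ℂ)) x :=
      ((hasFDerivAt_id x).neg).sub_const y
    have h4 : HasFDerivAt (fun z : ι → ℂ => ζ (-z - y))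
        ((fderiv ℂ ζ (-x - y)).comp (-ContinuousLinearMap.id ℂ (ι → ℂ))) x :=
      HasFDerivAt.comp (g := ζ) (f := fun z : ι → ℂ => -z - y) x (hdiff _ h3).hasFDerivAt hin
    have h5 := ((hdiff x h1).hasFDerivAt.add_const (ζ y)).add h4
    have h6 : (fun z : ι → ℂ => ζ z + ζ y + ζ (-z - y)) =ᶠ[nhds x] fun _ => c := by
      have e1 : ∀ᶠ z in nhds x, F z ≠ 0 := hFc.continuousAt.eventually_ne h1
      have e2 : ∀ᶠ z in nhds x, F (-z - y) ≠ 0 := by
        have e3 : Continuous fun z : ι → ℂ => F (-z - y) := by fun_prop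
        exact e3.continuousAt.eventually_ne h3
      filter_upwards [e1, e2] with z hz1 hz2
      exact hsum z y hz1 h2 hz2
    have h7 : HasFDerivAt (fun z : ι → ℂ => ζ z + ζ y + ζ (-z - y)) (0 : (ι → ℂ) →L[ℂ] ℂ) x :=
      (hasFDerivAt_const c x).congr_of_eventuallyEq h6
    have h8 := h5.unique h7
    rw [ContinuousLinearMap.comp_neg, ContinuousLinearMap.comp_id, add_neg_eq_zero] at h8
    exact h8
  have hA : ∀ x, F x ≠ 0 → F (-x - y₀) ≠ 0 → fderiv ℂ ζ x = fderiv ℂ ζ y₀ := by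
    intro x h1 h2
    have e : -y₀ - x = -x - y₀ := by abel
    rw [hgen x y₀ h1 hy₀ h2, hgen y₀ x hy₀ h1 (by rw [e]; exact h2), e]
  obtain ⟨A, hAdef⟩ : ∃ A : (ι → ℂ) →L[ℂ] ℂ, A = fderiv ℂ ζ y₀ := ⟨_, rfl⟩
  obtain ⟨r, hr, hball⟩ : ∃ r > 0, Metric.ball x₀ r ⊆ {x | F x ≠ 0 ∧ F (-x - y₀) ≠ 0} := by
    have e3 : Continuous fun z : ι → ℂ => F (-z - y₀) := by fun_prop
    have e1 : ∀ᶠ z in nhds x₀, F z ≠ 0 ∧ F (-z - y₀) ≠ 0 :=
      (hFc.continuousAt.eventually_ne hx₀).and (e3.continuousAt.eventually_ne ht₀)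
    exact Metric.mem_nhds_iff.1 e1
  have hη : ∀ x ∈ Metric.ball x₀ r, HasFDerivAt (fun z => ζ z - A z) (0 : (ι → ℂ) →L[ℂ] ℂ) x := by
    intro x hx
    obtain ⟨h1, h2⟩ := hball hx
    have h3 := (hdiff x h1).hasFDerivAt.sub (A.hasFDerivAt (x := x))
    rw [hA x h1 h2, ← hAdef, sub_self] at h3
    exact h3
  have hconst : ∀ x ∈ Metric.ball x₀ r, ζ x - A x = ζ x₀ - A x₀ := by
    intro x hx
    exact IsOpen.is_const_of_fderiv_eq_zero (𝕜 := ℂ) (f := fun z => ζ z - A z)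
      (s := Metric.ball x₀ r) Metric.isOpen_ball
      (convex_ball x₀ r).isPreconnected
      (fun z hz => (hη z hz).differentiableAt.differentiableWithinAt)
      (fun z hz => (hη z hz).fderiv) hx (Metric.mem_ball_self hr)
  refine ⟨(A : (ι → ℂ) →ₗ[ℂ] ℂ), ζ x₀ - A x₀, fun z => ?_⟩
  have hG2 : Differentiable ℂ (fun z : ι → ℂ =>
      fderiv ℂ F z v - (A z + (ζ x₀ - A x₀)) * F z) :=
    hD.sub ((A.differentiable.add_const _).mul hF)
  have h0 := eq_zero_of_eventually hG2 x₀ (by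
    filter_upwards [Metric.ball_mem_nhds x₀ hr] with x hx
    have h1 := hconst x hx
    obtain ⟨h2, _⟩ := hball hx
    have h3 : A x + (ζ x₀ - A x₀) = ζ x := by rw [← h1]; ring
    rw [h3, hζ]
    show fderiv ℂ F x v - fderiv ℂ F x v / F x * F x = 0
    rw [div_mul_cancel₀ _ h2, sub_self]) z
  have h1 : fderiv ℂ F z v - (A z + (ζ x₀ - A x₀)) * F z = 0 := h0
  rw [sub_eq_zero] at h1
  exact h1

end LTG
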