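import Pool.Agent.Helper34.LT.Df

/-!
# LT, block G, piece G17: `RT` and the substitution `z = e₁ x + e₂ y + e₃ w`

For one variable, `(e₁ a + e₂ b + e₃ c)^m / m! = ∑_{i+j+k=m} e₁^i e₂^j e₃^k a^i b^j c^k / (i! j! k!)`.
Write `M = (i, j, k) : ι ⊕ (ι ⊕ ι) → ℕ` and `m(M) = i + j + k : ι → ℕ`. The new coefficients are
`A'_M = A_{m(M)} e₁^|i| e₂^|j| e₃^|k|`, and `|M| = |m(M)|`. The family
`A'_M / (D^(|M|+k) M!) x^M` is absolutely summable: grouping by the value `m` of `m(M)` (finite fibres,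
`summable_sigma_of_nonneg` through `Equiv.sigmaFiberEquiv`) the norms add up to
`‖A_m‖ / D^(|m|+k) ∏_u (|e₁||x_u| + |e₂||y_u| + |e₃||w_u|)^(m_u) / m_u!`, summable because the series of
`f` converges absolutely at this real point (`Summable.norm`). The sum over the fibre of `m` without
absolute values is the `m`-th term of the series of `f` at `e₁ x + e₂ y + e₃ w`
(`HasSum.sigma`/`HasSum.sigma_of_hasSum`). The fibre over `m` is
`Fintype.piFinset` of `antidiagonal`s: `∏_u ∑_{i+j+k = m_u} = ∑_{fibre} ∏_u` (`Finset.prod_univ_sum`).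
-/

set_option autoImplicit false

namespace LTG

open Finset Pool.Agent.Helper34.LT

/-- triples with sum `n` -/
private def rlS (n : ℕ) : Finset (ℕ × ℕ × ℕ) :=
  ((antidiagonal n).sigma fun q => antidiagonal q.2).image fun x => (x.1.1, x.2.1, x.2.2)

private theorem rl_mem {n : ℕ} {p : ℕ × ℕ × ℕ} : p ∈ rlS n ↔ p.1 + (p.2.1 + p.2.2) = n := by
  unfold rlS
  rw [mem_image]
  constructor
  · rintro ⟨⟨q, r⟩, hx, rfl⟩
    simp only [mem_sigma, HasAntidiagonal.mem_antidiagonal] at hx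
    simp only
    omega
  · intro h
    refine ⟨⟨(p.1, p.2.1 + p.2.2), (p.2.1, p.2.2)⟩, ?_, ?_⟩
    · simp only [mem_sigma, HasAntidiagonal.mem_antidiagonal]
      exact ⟨h, trivial⟩
    · simp

private theorem rl_sum {K : Type*} [AddCommMonoid K] (n : ℕ) (g : ℕ × ℕ × ℕ → K) :
    ∑ p ∈ rlS n, g p = ∑ q ∈ antidiagonal n, ∑ r ∈ antidiagonal q.2, g (q.1, r.1, r.2) := by
  unfold rlS
  rw [sum_image, sum_sigma]
  rintro ⟨⟨a, b⟩, c, d⟩ h1 ⟨⟨a', b'⟩, c', d'⟩ h2 h3
  simp only [coe_sigma, Set.mem_sigma_iff, mem_coe, HasAntidiagonal.mem_antidiagonal] at h1 h2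
  simp only [Prod.mk.injEq] at h3
  obtain ⟨rfl, rfl, rfl⟩ := h3
  have h4 : b = b' := by omega
  subst h4
  rfl

private theorem rl_two {K : Type*} [Field K] [CharZero K] (a b : K) (n : ℕ) :
    (a + b) ^ n / (n.factorial : K) =
      ∑ q ∈ antidiagonal n, a ^ q.1 / (q.1.factorial : K) * (b ^ q.2 / (q.2.factorial : K)) := by
  rw [(Commute.all a b).add_pow', sum_div]
  refine sum_congr rfl fun q hq => ?_
  rw [HasAntidiagonal.mem_antidiagonal] at hq
  have h1 : q.1 ≤ n := by omega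
  have h2 := Nat.choose_mul_factorial_mul_factorial h1
  have h3 : n - q.1 = q.2 := by omega
  rw [h3] at h2
  have h4 : ((n.choose q.1 : ℕ) : K) * (q.1.factorial : K) * (q.2.factorial : K) =
      (n.factorial : K) := by exact_mod_cast h2
  have h5 : (q.1.factorial : K) ≠ 0 := by exact_mod_cast q.1.factorial_ne_zero
  have h6 : (q.2.factorial : K) ≠ 0 := by exact_mod_cast q.2.factorial_ne_zero
  have h7 : (n.factorial : K) ≠ 0 := by exact_mod_cast n.factorial_ne_zero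
  rw [nsmul_eq_mul, div_mul_div_comm, div_eq_div_iff h7 (mul_ne_zero h5 h6), ← h4]
  ring

private theorem rl_three {K : Type*} [Field K] [CharZero K] (a b c : K) (n : ℕ) :
    ∑ p ∈ rlS n, a ^ p.1 * (b ^ p.2.1 * c ^ p.2.2) /
      ((p.1.factorial : K) * ((p.2.1.factorial : K) * (p.2.2.factorial : K))) =
      (a + (b + c)) ^ n / (n.factorial : K) := by
  rw [rl_two, rl_sum]
  refine sum_congr rfl fun q _ => ?_
  rw [rl_two, mul_sum]
  refine sum_congr rfl fun r _ => ?_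
  rw [div_mul_div_comm, div_mul_div_comm]

private theorem rl_fib {α β : Type} (g : α → β) (S : β → Finset α)
    (hS : ∀ b a, a ∈ S b ↔ g a = b) (T : α → ℂ) (t : β → ℂ) (s : ℂ)
    (hT : ∀ b, ∑ a ∈ S b, T a = t b) (hn : Summable fun b => ∑ a ∈ S b, ‖T a‖)
    (ht : HasSum t s) : HasSum T s := by
  have key : ∀ {K : Type} [NormedAddCommGroup K] (F : α → K) (b : β),
      HasSum (fun c : {a // g a = b} => F c) (∑ a ∈ S b, F a) := by
    intro K _ F b
    have h1 := (S b).hasSum F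
    exact (Equiv.subtypeEquivRight (hS b)).symm.hasSum_iff.mpr h1
  rw [← (Equiv.sigmaFiberEquiv g).hasSum_iff]
  refine HasSum.sigma_of_hasSum ht (fun b => ?_) ?_
  · rw [← hT b]
    exact key T b
  · refine Summable.of_norm ?_
    rw [summable_sigma_of_nonneg fun _ => norm_nonneg _]
    refine ⟨fun b => (key (fun a => ‖T a‖) b).summable, ?_⟩
    refine hn.congr fun b => ?_
    exact ((key (fun a => ‖T a‖) b).tsum_eq).symm

private theorem rl_pi {ι : Type} [Fintype ι] [DecidableEq ι] {K : Type*} [Field K] [CharZero K]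
    (a b c : ι → K) (m : ι → ℕ) :
    ∑ P ∈ Fintype.piFinset (fun u => rlS (m u)), ∏ u, (a u ^ (P u).1 *
      (b u ^ (P u).2.1 * c u ^ (P u).2.2) /
      (((P u).1.factorial : K) * (((P u).2.1.factorial : K) * ((P u).2.2.factorial : K)))) =
    ∏ u, ((a u + (b u + c u)) ^ m u / ((m u).factorial : K)) := by
  rw [← prod_univ_sum (fun u => rlS (m u)) (fun u p => (a u ^ p.1 *
      (b u ^ p.2.1 * c u ^ p.2.2) /
      ((p.1.factorial : K) * ((p.2.1.factorial : K) * (p.2.2.factorial : K)))))]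
  exact prod_congr rfl fun u _ => rl_three _ _ _ _

private theorem rl_alg {K : Type*} [Field K] (a d p f : K) : a / d * (p / f) = a / (d * f) * p := by
  rw [div_mul_div_comm, div_mul_eq_mul_div]

private def rlE (ι : Type) : (ι ⊕ (ι ⊕ ι) → ℕ) ≃ (ι → ℕ × ℕ × ℕ) where
  toFun M u := (M (Sum.inl u), M (Sum.inr (Sum.inl u)), M (Sum.inr (Sum.inr u)))
  invFun P := Sum.elim (fun u => (P u).1) (Sum.elim (fun u => (P u).2.1) fun u => (P u).2.2)
  left_inv M := by
    funext s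
    rcases s with s | s | s <;> rfl
  right_inv P := by
    funext u
    rfl

theorem RT_lin {ι : Type} [Fintype ι] (D k : ℕ) (hD : 1 ≤ D) (e1 e2 e3 : ℤ) (f : (ι → ℂ) → ℂ)
    (h : RT D k f) : RT D k (fun x : ι ⊕ (ι ⊕ ι) → ℂ =>
      f (fun u => e1 * x (Sum.inl u) + e2 * x (Sum.inr (Sum.inl u)) +
        e3 * x (Sum.inr (Sum.inr u)))) := by
  classical
  obtain ⟨A, hA⟩ := h
  have hD0 : (D : ℂ) ≠ 0 := by
    have : D ≠ 0 := by omega
    exact_mod_cast this
  let g : (ι → ℕ × ℕ × ℕ) → (ι → ℕ) := fun P u => (P u).1 + ((P u).2.1 + (P u).2.2)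
  refine ⟨fun M => A (g (rlE ι M)) * (e1 ^ (∑ u, M (Sum.inl u)) *
    (e2 ^ (∑ u, M (Sum.inr (Sum.inl u))) * e3 ^ (∑ u, M (Sum.inr (Sum.inr u))))), fun x => ?_⟩
  have hS : ∀ (m : ι → ℕ) (P : ι → ℕ × ℕ × ℕ),
      P ∈ Fintype.piFinset (fun u => rlS (m u)) ↔ g P = m := by
    intro m P
    rw [Fintype.mem_piFinset, funext_iff]
    exact forall_congr' fun u => rl_mem
  let T : (ι → ℕ × ℕ × ℕ) → ℂ := fun P => (A (g P) : ℂ) / (D : ℂ) ^ (∑ u, g P u + k) *
    ∏ u, ((e1 * x (Sum.inl u)) ^ (P u).1 * ((e2 * x (Sum.inr (Sum.inl u))) ^ (P u).2.1 *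
      (e3 * x (Sum.inr (Sum.inr u))) ^ (P u).2.2) /
      (((P u).1.factorial : ℂ) * (((P u).2.1.factorial : ℂ) * ((P u).2.2.factorial : ℂ))))
  have hz := hA (fun u => e1 * x (Sum.inl u) + e2 * x (Sum.inr (Sum.inl u)) +
        e3 * x (Sum.inr (Sum.inr u)))
  have hmain : HasSum T (f (fun u => e1 * x (Sum.inl u) + e2 * x (Sum.inr (Sum.inl u)) +
        e3 * x (Sum.inr (Sum.inr u)))) := by
    refine rl_fib g (fun m => Fintype.piFinset (fun u => rlS (m u))) hS T _ _ (fun m => ?_) ?_ hz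
    · have h1 : ∀ P ∈ Fintype.piFinset (fun u => rlS (m u)), T P =
          (A m : ℂ) / (D : ℂ) ^ (∑ u, m u + k) *
          ∏ u, ((e1 * x (Sum.inl u)) ^ (P u).1 * ((e2 * x (Sum.inr (Sum.inl u))) ^ (P u).2.1 *
            (e3 * x (Sum.inr (Sum.inr u))) ^ (P u).2.2) /
            (((P u).1.factorial : ℂ) * (((P u).2.1.factorial : ℂ) *
              ((P u).2.2.factorial : ℂ)))) := by
        intro P hP
        rw [(hS m P)] at hP
        simp only [T, hP]
      rw [sum_congr rfl h1, ← mul_sum, rl_pi, prod_div_distrib]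
      simp only [← add_assoc]
      exact rl_alg _ _ _ _
    · have h2 := (hA (fun u => ((‖(e1 : ℂ) * x (Sum.inl u)‖ +
        (‖(e2 : ℂ) * x (Sum.inr (Sum.inl u))‖ + ‖(e3 : ℂ) * x (Sum.inr (Sum.inr u))‖) : ℝ) : ℂ))).summable.norm
      refine h2.congr fun m => ?_
      have h1 : ∀ P ∈ Fintype.piFinset (fun u => rlS (m u)), ‖T P‖ =
          ‖(A m : ℂ)‖ / (D : ℝ) ^ (∑ u, m u + k) *
          ∏ u, (‖(e1 : ℂ) * x (Sum.inl u)‖ ^ (P u).1 *
            (‖(e2 : ℂ) * x (Sum.inr (Sum.inl u))‖ ^ (P u).2.1 *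
            ‖(e3 : ℂ) * x (Sum.inr (Sum.inr u))‖ ^ (P u).2.2) /
            (((P u).1.factorial : ℝ) * (((P u).2.1.factorial : ℝ) *
              ((P u).2.2.factorial : ℝ)))) := by
        intro P hP
        rw [(hS m P)] at hP
        simp only [T, hP, norm_mul, norm_div, norm_pow, norm_prod, Complex.norm_natCast]
      rw [sum_congr rfl h1, ← mul_sum, rl_pi, prod_div_distrib]
      rw [norm_mul, norm_div, norm_mul, norm_pow, norm_prod, norm_prod, Complex.norm_natCast]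
      have h3 : ∀ u, ‖((‖(e1 : ℂ) * x (Sum.inl u)‖ +
          (‖(e2 : ℂ) * x (Sum.inr (Sum.inl u))‖ +
          ‖(e3 : ℂ) * x (Sum.inr (Sum.inr u))‖) : ℝ) : ℂ) ^ m u‖ =
          (‖(e1 : ℂ) * x (Sum.inl u)‖ + (‖(e2 : ℂ) * x (Sum.inr (Sum.inl u))‖ +
          ‖(e3 : ℂ) * x (Sum.inr (Sum.inr u))‖)) ^ m u := by
        intro u
        rw [norm_pow, Complex.norm_real, Real.norm_of_nonneg (by positivity)]
      simp only [h3, Complex.norm_natCast]
      exact (rl_alg _ _ _ _).symm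
  rw [← (rlE ι).hasSum_iff] at hmain
  convert hmain using 1
  funext M
  simp only [T, g, rlE, Function.comp_apply, Equiv.coe_fn_mk, Fintype.sum_sum_type,
    Fintype.prod_sum_type, prod_div_distrib, prod_mul_distrib, mul_pow, prod_pow_eq_pow_sum,
    sum_add_distrib]
  push_cast
  rw [rl_alg]
  ring

end LTG
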