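import Pool.Agent.Helper4.LT.Rt
import Pool.Agent.Helper4.LT.Rl
import Pool.Agent.Helper4.LT.Fe
import Pool.Agent.Helper4.LT.Af

/-!
# LT, block G, piece G18: the function `T (z, w₁, w₂) = τ(z + w₁) τ(z + w₂) τ(z - w₁ - w₂)`

`TT_RT`: `RT_lin` with `(1,1,0)`, `(1,0,1)`, `(1,-1,-1)` and `RT_mul` twice.

`TT_ne`: choose `w₁` with `τ (p + w₁) ≠ 0`, then (`exists_ne₂`) `w₂` with `τ (p + w₂) ≠ 0` and
`τ (p - w₁ - w₂) ≠ 0`.

`TT_QP`: the three exponents add up: `l_P(z+w₁) + l_P(z+w₂) + l_P(z-w₁-w₂) = 3 l_P(z)`.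

`TT_span`: the derivative of `y ↦ T (y, w₁, w₂)` at `0` in the direction `v` is
`D w₁ τ w₂ τ t + τ w₁ D w₂ τ t + τ w₁ τ w₂ D t`, `t = - w₁ - w₂`, `D p = fderiv ℂ τ p v`. So the hypothesis
is the functional equation of `affine_of_eq` and `v = 0` by `aff_zero`.
-/

set_option autoImplicit false

namespace LTG

open Finset Pool.Agent.Helper34.LT

noncomputable def TT {ι : Type} (τ : (ι → ℂ) → ℂ) (x : ι ⊕ (ι ⊕ ι) → ℂ) : ℂ :=
  τ (fun u => x (Sum.inl u) + x (Sum.inr (Sum.inl u))) *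
    τ (fun u => x (Sum.inl u) + x (Sum.inr (Sum.inr u))) *
    τ (fun u => x (Sum.inl u) - x (Sum.inr (Sum.inl u)) - x (Sum.inr (Sum.inr u)))

theorem TT_RT {ι : Type} [Fintype ι] (D : ℕ) (hD : 1 ≤ D) (τ : (ι → ℂ) → ℂ) (h : RT D 1 τ) :
    RT D 3 (TT τ) := by
  have h1 := RT_lin D 1 hD 1 1 0 τ h
  have h2 := RT_lin D 1 hD 1 0 1 τ h
  have h3 := RT_lin D 1 hD 1 (-1) (-1) τ h
  have h4 := RT_mul D (1 + 1) 1 hD _ _ (RT_mul D 1 1 hD _ _ h1 h2) h3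
  have e : TT τ = fun z : ι ⊕ (ι ⊕ ι) → ℂ =>
      τ (fun u => ((1 : ℤ) : ℂ) * z (Sum.inl u) + ((1 : ℤ) : ℂ) * z (Sum.inr (Sum.inl u)) +
        ((0 : ℤ) : ℂ) * z (Sum.inr (Sum.inr u))) *
      τ (fun u => ((1 : ℤ) : ℂ) * z (Sum.inl u) + ((0 : ℤ) : ℂ) * z (Sum.inr (Sum.inl u)) +
        ((1 : ℤ) : ℂ) * z (Sum.inr (Sum.inr u))) *
      τ (fun u => ((1 : ℤ) : ℂ) * z (Sum.inl u) + ((-1 : ℤ) : ℂ) * z (Sum.inr (Sum.inl u)) +
        ((-1 : ℤ) : ℂ) * z (Sum.inr (Sum.inr u))) := by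
    funext z
    unfold TT
    congr 1
    · congr 1
      · congr 1
        funext u
        push_cast
        ring
      · congr 1
        funext u
        push_cast
        ring
    · congr 1
      funext u
      push_cast
      ring
  rw [e]
  exact h4

theorem TT_diff {ι : Type} [Fintype ι] (τ : (ι → ℂ) → ℂ) (h : Differentiable ℂ τ) :
    Differentiable ℂ (TT τ) := by
  unfold TT
  refine ((h.comp ?_).mul (h.comp ?_)).mul (h.comp ?_) <;>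
    · rw [differentiable_pi]
      intro u
      fun_prop

private theorem TT_elim {ι : Type} (τ : (ι → ℂ) → ℂ) (y : ι → ℂ) (w : ι ⊕ ι → ℂ) :
    TT τ (Sum.elim y w) = τ (y + fun u => w (Sum.inl u)) * τ (y + fun u => w (Sum.inr u)) *
      τ (y + (-(fun u => w (Sum.inl u)) - fun u => w (Sum.inr u))) := by
  unfold TT
  congr 1
  congr 1
  funext u
  simp only [Sum.elim_inl, Sum.elim_inr, Pi.add_apply, Pi.sub_apply, Pi.neg_apply]
  ring

theorem TT_ne {ι : Type} [Fintype ι] (τ : (ι → ℂ) → ℂ) (h : Differentiable ℂ τ)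
    (hne : ∃ z, τ z ≠ 0) (p : ι → ℂ) : ∃ w : ι ⊕ ι → ℂ, TT τ (Sum.elim p w) ≠ 0 := by
  obtain ⟨z, hz⟩ := hne
  obtain ⟨w1, hw1⟩ : ∃ w1, τ (p + w1) ≠ 0 := ⟨z - p, by rwa [add_sub_cancel]⟩
  obtain ⟨w2, h2, h3⟩ := exists_ne₂ (F := fun w => τ (p + w)) (G := fun w => τ (p + (-w1 - w)))
    (h.comp (by fun_prop)) (h.comp (by fun_prop)) ⟨w1, hw1⟩
    ⟨-w1 - z + p, by
      have e : p + (-w1 - (-w1 - z + p)) = z := by abel
      show τ (p + (-w1 - (-w1 - z + p))) ≠ 0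
      rwa [e]⟩
  refine ⟨Sum.elim w1 w2, ?_⟩
  rw [TT_elim]
  exact mul_ne_zero (mul_ne_zero hw1 h2) h3

theorem TT_QP (q : ℕ) (s : Finset ℕ) (ρ : ℕ → ℂ) (κ : s → ℂ) (c : Polynomial ℤ → ℂ)
    (τ : (s → ℂ) → ℂ) (h : QPS q s ρ κ c τ)
    (w : s ⊕ s → ℂ) :
    QPS q s ρ (fun u => 3 * κ u) (fun P => 3 * c P) (fun z => TT τ (Sum.elim z w)) := by
  intro P z
  show TT τ (Sum.elim (z + lamS q s ρ P) w) = _ * TT τ (Sum.elim z w)
  rw [TT_elim, TT_elim]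
  obtain ⟨x, hx⟩ : ∃ x : s → ℂ, x = fun u => w (Sum.inl u) := ⟨_, rfl⟩
  obtain ⟨y, hy⟩ : ∃ y : s → ℂ, y = fun u => w (Sum.inr u) := ⟨_, rfl⟩
  rw [← hx, ← hy, add_right_comm z _ x, add_right_comm z _ y, add_right_comm z _ (-x - y),
    h P (z + x), h P (z + y), h P (z + (-x - y))]
  have e : Complex.exp (∑ u, 3 * κ u * (starRingEnd ℂ) (pt q _ P u) * z u + 3 * c P) =
      Complex.exp (∑ u, κ u * (starRingEnd ℂ) (pt q _ P u) * (z + x) u + c P) *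
      Complex.exp (∑ u, κ u * (starRingEnd ℂ) (pt q _ P u) * (z + y) u + c P) *
      Complex.exp (∑ u, κ u * (starRingEnd ℂ) (pt q _ P u) * (z + (-x - y)) u + c P) := by
    rw [← Complex.exp_add, ← Complex.exp_add]
    congr 1
    have e2 : ∑ u, 3 * κ u * (starRingEnd ℂ) (pt q _ P u) * z u =
        ∑ u, κ u * (starRingEnd ℂ) (pt q _ P u) * (z + x) u +
        ∑ u, κ u * (starRingEnd ℂ) (pt q _ P u) * (z + y) u +
        ∑ u, κ u * (starRingEnd ℂ) (pt q _ P u) * (z + (-x - y)) u := by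
      rw [← Finset.sum_add_distrib, ← Finset.sum_add_distrib]
      refine Finset.sum_congr rfl fun u _ => ?_
      simp only [Pi.add_apply, Pi.sub_apply, Pi.neg_apply]
      ring
    rw [e2]
    ring
  rw [e]
  ring

theorem TT_span (q : ℕ) (s : Finset ℕ) (hs : HS q s) (ρ : ℕ → ℂ)
    (κ : s → ℂ) (hκ : ∀ u, κ u ≠ 0) (c : Polynomial ℤ → ℂ) (τ : (s → ℂ) → ℂ)
    (hτ : Differentiable ℂ τ) (hne : ∃ z, τ z ≠ 0) (h : QPS q s ρ κ c τ)
    (v : s → ℂ) (c₀ : ℂ)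
    (hv : ∀ w : s ⊕ s → ℂ,
      fderiv ℂ (fun y : s → ℂ => TT τ (Sum.elim y w)) 0 v =
        c₀ * TT τ (Sum.elim 0 w)) : v = 0 := by
  have hd : ∀ x : s → ℂ,
      HasFDerivAt (fun y : s → ℂ => τ (y + x)) (fderiv ℂ τ x) 0 := by
    intro x
    have h1 : HasFDerivAt τ (fderiv ℂ τ x) (0 + x) := by
      rw [zero_add]
      exact (hτ x).hasFDerivAt
    have h2 : HasFDerivAt (fun y : s → ℂ => y + x)
        (ContinuousLinearMap.id ℂ (s → ℂ)) 0 := (hasFDerivAt_id 0).add_const x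
    have h3 := HasFDerivAt.comp (0 : s → ℂ) h1 h2
    rwa [ContinuousLinearMap.comp_id] at h3
  obtain ⟨A, b₀, hA⟩ := affine_of_eq τ hτ hne v c₀ (by
    intro x y
    have h1 := hv (Sum.elim x y)
    have e : (fun z : s → ℂ => TT τ (Sum.elim z (Sum.elim x y))) =
        fun z => τ (z + x) * τ (z + y) * τ (z + (-x - y)) := by
      funext z
      rw [TT_elim]
      rfl
    have h2 : HasFDerivAt (fun z : s → ℂ => τ (z + x) * τ (z + y) * τ (z + (-x - y)))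
        _ 0 := ((hd x).mul (hd y)).mul (hd (-x - y))
    rw [e, TT_elim, h2.fderiv] at h1
    simp only [Sum.elim_inl, Sum.elim_inr, zero_add, _root_.add_apply,
      _root_.smul_apply, smul_eq_mul, Pi.mul_apply] at h1
    have e2 : c₀ * (τ x * τ y * τ (-x - y)) = c₀ * (τ (fun u => x u) * τ (fun u => y u) *
      τ (-(fun u => x u) - fun u => y u)) := rfl
    rw [e2, ← h1]
    ring)
  exact aff_zero q s hs ρ κ hκ c τ hτ hne h v A b₀ hA

end LTG
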