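import Pool.Agent.Helper4.LT.Gd
import Pool.Agent.Helper4.LT.Zt

/-!
# LT, block G, piece G1s: algebra of `lamS`

The same as for `lam` in `Zt.lean`.
-/

set_option autoImplicit false

namespace LTG

open Finset Pool.Agent.Helper34.LT

theorem lamS_add (q : ℕ) (s : Finset ℕ) (ρ : ℕ → ℂ) (P Q : Polynomial ℤ) :
    lamS q s ρ (P + Q) = lamS q s ρ P + lamS q s ρ Q := by
  funext u
  simp only [lamS, Pi.add_apply, pt_add]
  ring

theorem lamS_zero (q : ℕ) (s : Finset ℕ) (ρ : ℕ → ℂ) : lamS q s ρ 0 = 0 := by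
  funext u
  simp [lamS, pt]

theorem lamS_neg (q : ℕ) (s : Finset ℕ) (ρ : ℕ → ℂ) (P : Polynomial ℤ) :
    lamS q s ρ (-P) = -lamS q s ρ P := by
  funext u
  simp [lamS, pt]

theorem lamS_zsmul (q : ℕ) (s : Finset ℕ) (ρ : ℕ → ℂ) (n : ℤ) (P : Polynomial ℤ) :
    lamS q s ρ (n • P) = (n : ℂ) • lamS q s ρ P := by
  funext u
  simp only [lamS, pt, zsmul_eq_mul, map_mul, map_intCast, Pi.smul_apply, smul_eq_mul]
  ring

theorem lamS_sum (q : ℕ) (s : Finset ℕ) (ρ : ℕ → ℂ) {J : Type} (t : Finset J)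
    (P : J → Polynomial ℤ) :
    lamS q s ρ (∑ j ∈ t, P j) = ∑ j ∈ t, lamS q s ρ (P j) := by
  classical
  induction t using Finset.induction_on with
  | empty => simp [lamS_zero]
  | insert i t hi ih => rw [Finset.sum_insert hi, Finset.sum_insert hi, lamS_add, ih]

/-- exponents modulo `q` do not matter -/
theorem zt_pow_mod (q n m : ℕ) (hq : q ≠ 0) (h : n ≡ m [MOD q]) : zt q ^ n = zt q ^ m := by
  have h1 := Nat.div_add_mod n q
  have h2 := Nat.div_add_mod m q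
  have h3 : n % q = m % q := h
  rw [← h1, ← h2, pow_add, pow_add, pow_mul, pow_mul, zt_pow_q q hq, one_pow, one_pow, h3]

theorem lamS_X_mod (q : ℕ) (s : Finset ℕ) (ρ : ℕ → ℂ) (n m : ℕ) (hq : q ≠ 0)
    (h : n ≡ m [MOD q]) (P : Polynomial ℤ) :
    lamS q s ρ (Polynomial.X ^ n * P) = lamS q s ρ (Polynomial.X ^ m * P) := by
  funext u
  simp only [lamS, pt_mul, Pi.mul_apply, pt_X_pow]
  rw [zt_pow_mod q _ _ hq (h.mul_left u)]

end LTG
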