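import Pool.Agent.Helper4.LT.N0
import Pool.Agent.Helper4.LT.Zs

/-!
# LT, block G, piece G2: independence of the characters `n ↦ zeta^(u n)`

`chars`: the numbers `zeta^u`, `1 ≤ u ≤ q-1`, are distinct (`zt_prim`), so the `q - 1` functions
`n ↦ (zeta^u)^n` are linearly independent: use `linearIndependent_monoidHom` on
`Multiplicative ℕ →* ℂ` (powers), or a Vandermonde lemma such as
`Matrix.eq_zero_of_forall_pow_sum_mul_pow_eq_zero`.

`chars_phi`: `conj (zeta^(u n)) = zeta^((q-u) n)`, and the maps `u ↦ u`, `u ↦ q - u` are injective on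
`s` with disjoint images in `[1,q-1]` (`HS.half`: the elements of `s` are prime to `q`, and if
`u, u' ∈ s`, `u = q - u'`, then `q - u' ∈ s`, a contradiction). So put `c v = x v` for `v ∈ s`,
`c v = y (q - v)` for `q - v ∈ s`, `c v = 0` otherwise and apply `chars`.
-/

set_option autoImplicit false

namespace LTG

open Finset Pool.Agent.Helper34.LT

theorem chars (q : ℕ) (h3 : 3 ≤ q) (c : ℕ → ℂ)
    (h : ∀ n : ℕ, ∑ u ∈ Icc 1 (q - 1), c u * zt q ^ (u * n) = 0) :
    ∀ u ∈ Icc 1 (q - 1), c u = 0 := by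
  have hprim := zt_prim q (by omega)
  have hinj : Function.Injective (fun j : Fin (q - 1) => zt q ^ ((j : ℕ) + 1)) := by
    intro i j hij
    have h1 := hprim.pow_inj (show (i : ℕ) + 1 < q by omega) (show (j : ℕ) + 1 < q by omega) hij
    exact Fin.ext (by omega)
  have hIcc : Icc 1 (q - 1) = Ico (0 + 1) (q - 1 + 1) := by
    ext u
    rw [mem_Icc, mem_Ico]
    omega
  have hsum : ∀ n : ℕ, ∑ j : Fin (q - 1), c ((j : ℕ) + 1) * (zt q ^ ((j : ℕ) + 1)) ^ n = 0 := by
    intro n
    rw [← h n, hIcc, ← Finset.sum_Ico_add' (fun u => c u * zt q ^ (u * n)) 0 (q - 1) 1,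
      ← Finset.range_eq_Ico, ← Fin.sum_univ_eq_sum_range
        (fun j => c (j + 1) * zt q ^ ((j + 1) * n)) (q - 1)]
    refine Finset.sum_congr rfl fun j _ => ?_
    rw [pow_mul]
  have hz := Matrix.eq_zero_of_forall_pow_sum_mul_pow_eq_zero hinj
    (v := fun j : Fin (q - 1) => c ((j : ℕ) + 1)) (fun i => hsum i)
  intro u hu
  rw [mem_Icc] at hu
  have h1 := congrFun hz ⟨u - 1, by omega⟩
  have h2 : u - 1 + 1 = u := by omega
  simpa [h2] using h1

theorem chars_phi (q : ℕ) (s : Finset ℕ) (hs : HS q s) (x y : s → ℂ)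
    (h : ∀ n : ℕ, ∑ u : s, (x u * zt q ^ ((u : ℕ) * n) +
      y u * (starRingEnd ℂ) (zt q ^ ((u : ℕ) * n))) = 0) : x = 0 ∧ y = 0 := by
  classical
  have h3 := hs.three
  have hsubs : s ⊆ Icc 1 (q - 1) := by
    intro u hu
    have := hs.mem u hu
    rw [mem_Icc]
    omega
  have hsub : ∀ u ∈ s, q - u ∉ s := fun u hu =>
    (hs.half u (hs.mem u hu).1 (hs.mem u hu).2.1 (hs.mem u hu).2.2).1 hu
  obtain ⟨E, hE⟩ : ∃ E : (s → ℂ) → ℕ → ℂ, E = fun x v =>
    if h : v ∈ s then x ⟨v, h⟩ else 0 := ⟨_, rfl⟩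
  have E1 : ∀ (x : s → ℂ) (u : s), E x u = x u := by
    intro x u
    rw [hE]
    simp only [dif_pos u.2, Subtype.coe_eta]
  have E2 : ∀ (x : s → ℂ) (v : ℕ), v ∉ s → E x v = 0 := by
    intro x v hv
    rw [hE]
    simp only [dif_neg hv]
  have hS : ∀ (x : s → ℂ) (g : ℕ → ℂ),
      ∑ u : s, x u * g u = ∑ v ∈ Icc 1 (q - 1), E x v * g v := by
    intro x g
    have h1 : ∑ u : s, x u * g u = ∑ u : s, E x u * g u :=
      Finset.sum_congr rfl fun u _ => by rw [E1]
    rw [h1, Finset.sum_coe_sort (s) (fun v => E x v * g v)]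
    exact Finset.sum_subset hsubs fun v _ hv => by rw [E2 x v hv, zero_mul]
  have hR : ∀ (f : ℕ → ℂ), ∑ v ∈ Icc 1 (q - 1), f (q - v) = ∑ v ∈ Icc 1 (q - 1), f v := by
    intro f
    refine Finset.sum_nbij' (fun v => q - v) (fun v => q - v) ?_ ?_ ?_ ?_ ?_
    · intro v hv
      rw [mem_Icc] at hv ⊢
      omega
    · intro v hv
      rw [mem_Icc] at hv ⊢
      omega
    · intro v hv
      rw [mem_Icc] at hv
      show q - (q - v) = v
      omega
    · intro v hv
      rw [mem_Icc] at hv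
      show q - (q - v) = v
      omega
    · intro v hv
      rfl
  have hconj : ∀ (u : s) (n : ℕ), (starRingEnd ℂ) (zt q ^ ((u : ℕ) * n)) =
      zt q ^ ((q - (u : ℕ)) * n) := by
    intro u n
    rw [pow_mul, map_pow, conj_zt_pow q u (by omega) (hs.mem u u.2).2.1.le, ← pow_mul]
  have key : ∀ v ∈ Icc 1 (q - 1), E x v + E y (q - v) = 0 := by
    apply chars q h3 (fun v => E x v + E y (q - v))
    intro n
    have h1 := h n
    rw [Finset.sum_add_distrib, hS x (fun v => zt q ^ (v * n))] at h1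
    have h2 : ∑ u : s, y u * (starRingEnd ℂ) (zt q ^ ((u : ℕ) * n)) =
        ∑ v ∈ Icc 1 (q - 1), E y (q - v) * zt q ^ (v * n) := by
      have h4 : ∑ u : s, y u * (starRingEnd ℂ) (zt q ^ ((u : ℕ) * n)) =
          ∑ u : s, y u * (fun v : ℕ => zt q ^ ((q - v) * n)) u :=
        Finset.sum_congr rfl fun u _ => by rw [hconj]
      rw [h4, hS y (fun v : ℕ => zt q ^ ((q - v) * n)),
        ← hR (fun v => E y v * zt q ^ ((q - v) * n))]
      refine Finset.sum_congr rfl fun v hv => ?_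
      rw [mem_Icc] at hv
      have : q - (q - v) = v := by omega
      rw [this]
    rw [h2, ← Finset.sum_add_distrib] at h1
    rw [← h1]
    refine Finset.sum_congr rfl fun v _ => ?_
    ring
  constructor
  · funext u
    have h1 := key u (hsubs u.2)
    rw [E1, E2 y _ (hsub u u.2), add_zero] at h1
    exact h1
  · funext u
    have h0 := (hs.mem u u.2).1
    have h01 := (hs.mem u u.2).2.1
    have h1 := key (q - u) (by rw [mem_Icc]; omega)
    have h2 : q - (q - (u : ℕ)) = u := by omega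
    rw [E2 x _ (hsub u u.2), h2, E1, zero_add] at h1
    exact h1

end LTG
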