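import Pool.Agent.Helper4.LT.Mv

/-!
# LT, block G, piece G5: directional derivatives of entire functions on `ℂ^ι` are entire

`fderiv_le`: `s ↦ F (z + s v)` has derivative `fderiv ℂ F z v` at `0`; Cauchy's estimate
(`Complex.norm_deriv_le_of_forall_mem_sphere_norm_le`) on the circle of radius `1`.

`diff_dir`: Cauchy's formula `fderiv ℂ F z a = (2 π i)⁻¹ ∮ F (z + s a) / s^2 ds` over the unit circle
(`DifferentiableOn.deriv_eq_smul_circleIntegral` or the like; compute with `circleIntegral` as an
interval integral over `[0, 2π]`). Differentiate under the integral sign with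
`hasFDerivAt_integral_of_dominated_of_fderiv_le` (or `intervalIntegral.hasFDerivAt_...`): the
integrand has `z`-derivative `s^{-2} fderiv ℂ F (z + s a)`, bounded on a neighbourhood of the point by
`fderiv_le` (`F` is continuous, so bounded on bounded sets, which have compact closure); it is
measurable in `s` because `fderiv ℂ F` is measurable (`measurable_fderiv`) composed with a
continuous map.
Another way: `fderiv ℂ F (z) a` is the locally uniform limit of the entire functions
`n (F (z + a/n) - F z)`, and on complex lines locally uniform limits are holomorphic; the joint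
differentiability then needs more, so the integral is better.
-/

set_option autoImplicit false

namespace LTG

open Finset

private theorem dd_line {ι : Type} [Fintype ι] {F : (ι → ℂ) → ℂ} (hF : Differentiable ℂ F)
    (z v : ι → ℂ) (s : ℂ) :
    HasDerivAt (fun s : ℂ => F (z + s • v)) (fderiv ℂ F (z + s • v) v) s := by
  have h1 : HasFDerivAt F (fderiv ℂ F (z + s • v)) (z + s • v) := (hF _).hasFDerivAt
  have h2 : HasDerivAt (fun s : ℂ => z + s • v) v s := by
    have := ((hasDerivAt_id s).smul_const v).const_add z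
    simpa using this
  exact h1.comp_hasDerivAt s h2

private theorem dd_deriv {ι : Type} [Fintype ι] {F : (ι → ℂ) → ℂ} (hF : Differentiable ℂ F)
    (z v : ι → ℂ) : deriv (fun s : ℂ => F (z + s • v)) 0 = fderiv ℂ F z v := by
  rw [(dd_line hF z v 0).deriv, zero_smul, add_zero]

theorem fderiv_le {ι : Type} [Fintype ι] {F : (ι → ℂ) → ℂ} (hF : Differentiable ℂ F)
    (z v : ι → ℂ) (M : ℝ) (h : ∀ s : ℂ, ‖s‖ = 1 → ‖F (z + s • v)‖ ≤ M) :
    ‖fderiv ℂ F z v‖ ≤ M := by
  have hd : Differentiable ℂ (fun s : ℂ => F (z + s • v)) := fun s =>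
    (dd_line hF z v s).differentiableAt
  have h1 := Complex.norm_deriv_le_of_forall_mem_sphere_norm_le (c := (0 : ℂ)) (R := 1) (C := M)
    one_pos hd.diffContOnCl fun s hs => h s (by simpa using hs)
  rwa [dd_deriv hF, div_one] at h1

/-- the weight of Cauchy's formula on the unit circle -/
private noncomputable def dd_w (θ : ℝ) : ℂ :=
  (2 * Real.pi * Complex.I)⁻¹ * (deriv (circleMap 0 1) θ * (1 / (circleMap 0 1 θ - 0) ^ 2))

private theorem dd_w_cont : Continuous dd_w := by
  have h1 : Continuous (deriv (circleMap 0 1)) := by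
    have : deriv (circleMap 0 1) = fun θ => circleMap 0 1 θ * Complex.I := by
      funext θ
      exact deriv_circleMap 0 1 θ
    rw [this]
    exact (continuous_circleMap 0 1).mul continuous_const
  have h2 : ∀ θ, (circleMap 0 1 θ - 0) ^ 2 ≠ (0 : ℂ) := by
    intro θ
    rw [sub_zero]
    exact pow_ne_zero _ (circleMap_ne_center one_ne_zero)
  exact continuous_const.mul (h1.mul (continuous_const.div
    (((continuous_circleMap 0 1).sub continuous_const).pow 2) h2))

private theorem dd_cauchy {ι : Type} [Fintype ι] {F : (ι → ℂ) → ℂ} (hF : Differentiable ℂ F)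
    (z v : ι → ℂ) : fderiv ℂ F z v =
      ∫ θ : ℝ in (0)..(2 * Real.pi), dd_w θ * F (z + circleMap 0 1 θ • v) := by
  have hd : Differentiable ℂ (fun s : ℂ => F (z + s • v)) := fun s =>
    (dd_line hF z v s).differentiableAt
  have h1 := DifferentiableOn.deriv_eq_smul_circleIntegral (f := fun s : ℂ => F (z + s • v))
    (c := 0) (R := 1) one_pos hd.differentiableOn
  rw [dd_deriv hF] at h1
  have h2 : fderiv ℂ F z v = (2 * Real.pi * Complex.I)⁻¹ •
      ∮ s in C(0, 1), (1 / (s - 0) ^ 2) • F (z + s • v) := by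
    rw [h1, smul_smul, inv_mul_cancel₀ Complex.two_pi_I_ne_zero, one_smul]
  have h3 : (fun θ : ℝ => (2 * Real.pi * Complex.I)⁻¹ • (deriv (circleMap 0 1) θ •
      ((1 / (circleMap 0 1 θ - 0) ^ 2) • F (z + circleMap 0 1 θ • v)))) =
      fun θ : ℝ => dd_w θ * F (z + circleMap 0 1 θ • v) := by
    funext θ
    simp only [smul_eq_mul, dd_w]
    ring
  rw [h2, circleIntegral, ← intervalIntegral.integral_smul, h3]

private theorem dd_arg {ι : Type} [Fintype ι] (v : ι → ℂ) :
    Continuous fun x : (ι → ℂ) × ℝ => x.1 + circleMap 0 1 x.2 • v :=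
  continuous_fst.add (((continuous_circleMap 0 1).comp continuous_snd).smul continuous_const)

private theorem dd_fderiv_cont {ι : Type} [Fintype ι] {F : (ι → ℂ) → ℂ}
    (hF : Differentiable ℂ F) : Continuous (fderiv ℂ F) := by
  rw [continuous_clm_apply]
  intro v
  have h1 : (fun z => fderiv ℂ F z v) = fun z =>
      ∫ θ : ℝ in (0)..(2 * Real.pi), dd_w θ * F (z + circleMap 0 1 θ • v) :=
    funext fun z => dd_cauchy hF z v
  rw [h1]
  have h2 : Continuous fun x : (ι → ℂ) × ℝ => dd_w x.2 * F (x.1 + circleMap 0 1 x.2 • v) :=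
    (dd_w_cont.comp continuous_snd).mul (hF.continuous.comp (dd_arg v))
  exact intervalIntegral.continuous_parametric_intervalIntegral_of_continuous'
    (f := fun z θ => dd_w θ * F (z + circleMap 0 1 θ • v)) h2 0 (2 * Real.pi)

private theorem dd_shift {ι : Type} [Fintype ι] {F : (ι → ℂ) → ℂ} (hF : Differentiable ℂ F)
    (w : ℂ) (v z : ι → ℂ) :
    HasFDerivAt (fun z : ι → ℂ => w * F (z + v)) (w • fderiv ℂ F (z + v)) z := by
  have h4 : HasFDerivAt (fun z : ι → ℂ => F (z + v)) (fderiv ℂ F (z + v)) z :=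
    hasFDerivAt_comp_add_right v |>.2 (hF (z + v)).hasFDerivAt
  exact h4.const_mul w

theorem diff_dir {ι : Type} [Fintype ι] {F : (ι → ℂ) → ℂ} (hF : Differentiable ℂ F)
    (a : ι → ℂ) : Differentiable ℂ (fun z => fderiv ℂ F z a) := by
  have h1 : (fun z => fderiv ℂ F z a) = fun z =>
      ∫ θ : ℝ in (0)..(2 * Real.pi), dd_w θ * F (z + circleMap 0 1 θ • a) :=
    funext fun z => dd_cauchy hF z a
  rw [h1]
  intro z₀
  have hcF : Continuous fun x : (ι → ℂ) × ℝ => dd_w x.2 * F (x.1 + circleMap 0 1 x.2 • a) :=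
    (dd_w_cont.comp continuous_snd).mul (hF.continuous.comp (dd_arg a))
  have hcD : Continuous fun x : (ι → ℂ) × ℝ =>
      dd_w x.2 • fderiv ℂ F (x.1 + circleMap 0 1 x.2 • a) :=
    (dd_w_cont.comp continuous_snd).smul ((dd_fderiv_cont hF).comp (dd_arg a))
  obtain ⟨C, hC⟩ := ((isCompact_closedBall z₀ 1).prod
    (isCompact_Icc (a := (0 : ℝ)) (b := 2 * Real.pi))).exists_bound_of_continuousOn
    hcD.continuousOn
  have hmk : ∀ z : ι → ℂ, Continuous fun θ : ℝ => (z, θ) := fun z =>
    continuous_const.prodMk continuous_id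
  have h2 : ∀ z : ι → ℂ, Continuous fun θ : ℝ => dd_w θ * F (z + circleMap 0 1 θ • a) := by
    intro z
    have h := hcF.comp (hmk z)
    exact h
  have h3 : Continuous fun θ : ℝ => dd_w θ • fderiv ℂ F (z₀ + circleMap 0 1 θ • a) := by
    have h := hcD.comp (hmk z₀)
    exact h
  have hpi : (0 : ℝ) ≤ 2 * Real.pi := by positivity
  generalize hF1 : (fun (z : ι → ℂ) (θ : ℝ) => dd_w θ * F (z + circleMap 0 1 θ • a)) = F1
  generalize hF2 : (fun (z : ι → ℂ) (θ : ℝ) =>
    dd_w θ • fderiv ℂ F (z + circleMap 0 1 θ • a)) = F2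
  have e1 : ∀ z θ, F1 z θ = dd_w θ * F (z + circleMap 0 1 θ • a) := fun z θ => by rw [← hF1]
  have e2 : ∀ z θ, F2 z θ = dd_w θ • fderiv ℂ F (z + circleMap 0 1 θ • a) :=
    fun z θ => by rw [← hF2]
  have k1 : ∀ z, Continuous (F1 z) := fun z => by
    have : F1 z = fun θ => dd_w θ * F (z + circleMap 0 1 θ • a) := funext fun θ => e1 z θ
    rw [this]
    exact h2 z
  have k2 : Continuous (F2 z₀) := by
    have : F2 z₀ = fun θ => dd_w θ • fderiv ℂ F (z₀ + circleMap 0 1 θ • a) :=
      funext fun θ => e2 z₀ θ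
    rw [this]
    exact h3
  have k3 : ∀ θ ∈ Set.uIoc 0 (2 * Real.pi), ∀ z ∈ Metric.closedBall z₀ 1, ‖F2 z θ‖ ≤ C := by
    intro θ hθ z hz
    rw [Set.uIoc_of_le hpi] at hθ
    rw [e2]
    exact hC (z, θ) ⟨hz, Set.Ioc_subset_Icc_self hθ⟩
  have k4 : ∀ (θ : ℝ) (z : ι → ℂ), HasFDerivAt (fun z => F1 z θ) (F2 z θ) z := by
    intro θ z
    simp only [e1, e2]
    exact dd_shift hF _ _ z
  have key := intervalIntegral.hasFDerivAt_integral_of_dominated_of_fderiv_le
    (μ := MeasureTheory.volume) (a := 0) (b := 2 * Real.pi)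
    (F := F1) (F' := F2) (bound := fun _ => C) (Metric.closedBall_mem_nhds z₀ one_pos)
    (Filter.Eventually.of_forall fun z => (k1 z).aestronglyMeasurable)
    ((k1 z₀).intervalIntegrable _ _) k2.aestronglyMeasurable
    (Filter.Eventually.of_forall k3) intervalIntegrable_const
    (Filter.Eventually.of_forall fun θ _ z _ => k4 θ z)
  have h5 := key.differentiableAt
  simp only [e1] at h5
  exact h5

/-- `contDiff_one_iff_fderiv`; `fderiv ℂ F z` is the sum over the coordinates `u` of
`fderiv ℂ F z (e_u)` times the projection `u`, continuous by `diff_dir` -/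
theorem contDiff_one {ι : Type} [Fintype ι] {F : (ι → ℂ) → ℂ} (hF : Differentiable ℂ F) :
    ContDiff ℂ 1 F :=
  contDiff_one_iff_fderiv.2 ⟨hF, dd_fderiv_cont hF⟩

end LTG
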