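import Pool.Agent.Helper13.LT.Rtm

/-!
# LT, block G, piece G16: closure properties of `RT`

From the library of helper13, except `RT_pow`:
`A / D^(|m|+k) = A D^((k-1)|m|) / (D^k)^(|m| + 1)`.
-/

set_option autoImplicit false

namespace LTG

open Finset Pool.Agent.Helper34.LT

theorem RT_pow {ι : Type} [Fintype ι] (D k : ℕ) (hD : 1 ≤ D) (hk : 1 ≤ k) (f : (ι → ℂ) → ℂ)
    (h : RT D k f) : RT (D ^ k) 1 f := by
  obtain ⟨A, hA⟩ := h
  obtain ⟨j, rfl⟩ := Nat.exists_eq_add_of_le hk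
  refine ⟨fun m => A m * (D : ℤ) ^ (j * ∑ u, m u), fun z => ?_⟩
  refine (hA z).congr_fun ?_
  intro m
  have hD' : (D : ℂ) ≠ 0 := by exact_mod_cast (by omega : D ≠ 0)
  have hf' : ∏ u, ((m u).factorial : ℂ) ≠ 0 :=
    Finset.prod_ne_zero_iff.mpr fun u _ => by exact_mod_cast (Nat.factorial_ne_zero _)
  congr 1
  push_cast
  rw [div_eq_div_iff (by positivity) (by positivity)]
  rw [← pow_mul]
  have h1 : (1 + j) * (∑ u, m u + 1) = j * ∑ u, m u + (∑ u, m u + (1 + j)) := by ring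
  rw [h1, pow_add]
  ring

theorem RT_const {ι : Type} [Fintype ι] (D k : ℕ) (hD : 1 ≤ D) (n : ℤ) (f : (ι → ℂ) → ℂ)
    (h : RT D k f) : RT D k (fun z => n * f z) :=
  Pool.Agent.Helper13.LT.RT.zsmul hD h n

theorem RT_mul {ι : Type} [Fintype ι] (D k k' : ℕ) (hD : 1 ≤ D) (f g : (ι → ℂ) → ℂ)
    (h : RT D k f) (h' : RT D k' g) : RT D (k + k') (fun z => f z * g z) :=
  Pool.Agent.Helper13.LT.RT.mul hD h h'

end LTG
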