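import Pool.Agent.Helper13.LT.Psl
import Pool.Agent.Helper13.LT.Psd

/-!
# LT, block G, piece G6: power series in several variables

Both statements are special cases of the library of helper13.
-/

set_option autoImplicit false

namespace LTG

open Finset

theorem diff_of_hasSum {κ : Type} [Fintype κ] (a : (κ → ℕ) → ℂ) (T : (κ → ℂ) → ℂ)
    (h : ∀ x : κ → ℂ, HasSum (fun m : κ → ℕ => a m * ∏ u, x u ^ m u) (T x)) :
    Differentiable ℂ T :=
  Pool.Agent.Helper13.LT.PS.diff h

theorem coeff_zero {κ : Type} [Fintype κ] (a : (κ → ℕ) → ℂ)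
    (h : ∀ w : κ → ℂ, HasSum (fun m : κ → ℕ => a m * ∏ u, w u ^ m u) 0) (m : κ → ℕ) :
    a m = 0 := by
  have h1 : Pool.Agent.Helper13.LT.PS a (fun _ => 0) := h
  have h2 : Pool.Agent.Helper13.LT.PS (fun _ : κ → ℕ => (0 : ℂ)) (fun _ => 0) := by
    intro z
    simp
  have h3 := Pool.Agent.Helper13.LT.PS.unique h1 h2
  rw [h3]

end LTG
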